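import Pool.Agent.Lib.MP_fb3619_al.GJ6.Nrm

/-!
# MP_fb3619_al, finding 4515: the theorem for finite groups, end
-/

set_option autoImplicit false

universe u v w

namespace Pool.Agent.FourGp.GJ6

open LinearMap Module

variable {G : Type u} [Group G] [Finite G] {L : Subgroup G} {a b : G} {m : ℕ}

section Par

variable {E : Type v} [AddCommGroup E] [Module ℂ E] [FiniteDimensional ℂ E] {r : G → (E →ₗ[ℂ] E)}
variable {W : Type w} [AddCommGroup W] [Module ℂ W] [FiniteDimensional ℂ W] {s : G → (W →ₗ[ℂ] W)}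

/-- step (2) -/
theorem Gp.parity (h : Gp L a b m) (hr : Mu ⊤ r) (hs : Mu (Subgroup.centralizer {b}) s) :
    ∃ p q : ℤ, nn (Cc L b) r s b = (p : ℂ) ∧ nn (Ff L a b) r s 1 = ((p + 2 * q : ℤ) : ℂ) := by
  set C : Subgroup G := Subgroup.centralizer {b} with hC
  have memC : ∀ x, x ∈ C ↔ x * b = b * x := fun x => Subgroup.mem_centralizer_singleton_iff
  have hle : Cc L b ≤ C := inf_le_right
  have hFle : Ff L a b ≤ Cc L b := Cc_le _ _
  have hbC : b ∈ C := (memC b).2 rfl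
  have haC : a ∈ C := (memC a).2 h.ab
  have hrC : Mu C r := hr.le le_top
  have nzb : ∀ x ∈ Cc L b, b * x * b⁻¹ ∈ Cc L b := by
    intro x hx
    obtain ⟨hxL, hxb⟩ := mem_Cc.1 hx
    have : b * x * b⁻¹ = x := by rw [← hxb]; group
    rw [this]; exact hx
  have hai : a⁻¹ = a := inv_self h.aa
  have nza : ∀ x ∈ Cc L b, a * x * a ∈ Cc L b := by
    intro x hx
    obtain ⟨hxL, hxb⟩ := mem_Cc.1 hx
    have c1 : Commute x b := hxb
    have c2 : Commute a b := h.ab
    exact mem_Cc.2 ⟨(h.nz h.aa).nm x hxL, (c2.mul_left c1).mul_left c2⟩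
  have nzF : ∀ x ∈ Ff L a b, a * x * a⁻¹ ∈ Ff L a b := by
    intro x hx
    obtain ⟨_, _, hxa⟩ := mem_Ff.1 hx
    have : a * x * a⁻¹ = x := by rw [← hxa]; group
    rw [this]; exact hx
  obtain ⟨m1, n1, e1, e1'⟩ := par hrC hs hle haC h.aa (by
    intro x hx; rw [hai]; exact nza x hx)
  obtain ⟨m2, n2, e2, e2'⟩ := par hrC hs hle hbC h.bb nzb
  obtain ⟨m3, n3, e3, e3'⟩ := par hrC hs (hFle.trans hle) haC h.aa nzF
  have hNz : Nz (Cc L b) a m := ⟨h.aa, nza, h.od, fun x hx => h.ex x (Cc_le _ _ hx)⟩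
  have e4 := hNz.coset_sum (fun t => trace ℂ E (r t) * trace ℂ W (s t⁻¹)) (by
    intro l hl t ht
    have e : (l * t * l⁻¹)⁻¹ = l * t⁻¹ * l⁻¹ := by group
    have htC : t ∈ C := by
      have : t = a⁻¹ * (a * t) := by group
      rw [this]
      exact C.mul_mem (C.inv_mem haC) (hle ht)
    rw [e, hrC.cj htC (hle hl), hs.cj (C.inv_mem htC) (hle hl)])
  have e5 : nn (Cc L b) r s a = nn (Ff L a b) r s a := e4
  have e6 : m1 = m3 := by
    have : (m1 : ℂ) = (m3 : ℂ) := by rw [← e1, ← e3, e5]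
    exact_mod_cast this
  have e7 : m1 + 2 * n1 = m2 + 2 * n2 := by
    have : ((m1 + 2 * n1 : ℤ) : ℂ) = ((m2 + 2 * n2 : ℤ) : ℂ) := by rw [← e1', ← e2']
    exact_mod_cast this
  refine ⟨m2, n3 + n2 - n1, e2, ?_⟩
  rw [e3']
  congr 1
  omega

/-- steps (4), (5) -/
theorem Gp.val (_h : Gp L a b m) (hr : Mu ⊤ r) (hs : Mu (Subgroup.centralizer {b}) s)
    (hI : Irr (Ff L a b) s) (hn : nn (Cc L b) r r b = 1) {p : ℤ} (hp : p ≠ 0)
    (hnp : nn (Cc L b) r s b = (p : ℂ)) :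
    (∀ x ∈ Cc L b, trace ℂ E (r (b * x)) = (p : ℂ) * trace ℂ W (s (b * x))) ∧ p * p = 1 := by
  have hnt : Nontrivial W := hI.1
  set C : Subgroup G := Subgroup.centralizer {b} with hC
  have hle : Cc L b ≤ C := inf_le_right
  have hFle : Ff L a b ≤ Cc L b := Cc_le _ _
  have hbC : b ∈ C := Subgroup.mem_centralizer_singleton_iff.2 rfl
  have h2 : nn (Cc L b) s s b = 1 :=
    norm_one hs hle hbC fun T hT => schur hI fun x hx => hT x (hFle hx)
  have hsum : ∀ {U : Type v} {U' : Type w} [AddCommGroup U] [Module ℂ U] [AddCommGroup U']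
      [Module ℂ U'] [FiniteDimensional ℂ U'] (r : G → (U →ₗ[ℂ] U)) (s : G → (U' →ₗ[ℂ] U')),
      Mu C s → nn (Cc L b) r s b = ((fs (Cc L b)).card : ℂ)⁻¹ * ∑ x ∈ fs (Cc L b),
        trace ℂ U (r (b * x)) * star (trace ℂ U' (s (b * x))) := by
    intro U U' _ _ _ _ _ r s hs
    rw [nn]
    congr 1
    refine Finset.sum_congr rfl fun x hx => ?_
    rw [hs.star (C.mul_mem hbC (hle (mem_fs.1 hx)))]
  have hsum1 : nn (Cc L b) r r b = ((fs (Cc L b)).card : ℂ)⁻¹ * ∑ x ∈ fs (Cc L b),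
        trace ℂ E (r (b * x)) * star (trace ℂ E (r (b * x))) := by
    rw [nn]
    congr 1
    refine Finset.sum_congr rfl fun x hx => ?_
    rw [hr.star (Subgroup.mem_top _)]
  have hsum2 : nn (Cc L b) s s b = ((fs (Cc L b)).card : ℂ)⁻¹ * ∑ x ∈ fs (Cc L b),
        trace ℂ W (s (b * x)) * star (trace ℂ W (s (b * x))) := by
    rw [nn]
    congr 1
    refine Finset.sum_congr rfl fun x hx => ?_
    rw [hs.star (C.mul_mem hbC (hle (mem_fs.1 hx)))]
  rw [hsum1] at hn
  rw [hsum2] at h2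
  rw [hsum r s hs] at hnp
  obtain ⟨h3, h4⟩ := cs (card_ne _) hn h2 hnp hp
  exact ⟨fun x hx => h3 x (mem_fs.2 hx), h4⟩

/-- the sum of the conjugates of `b` is a scalar -/
theorem Gp.scb (h : Gp L a b m) (hr : Mu ⊤ r) (hI : Irr ⊤ r) :
    ∃ c : ℂ, ∑ l ∈ fs L, r (l * b * l⁻¹) = c • 1 := by
  have hm : ∀ x y, r (x * y) = r x * r y := fun x y =>
    hr.mul x (Subgroup.mem_top x) y (Subgroup.mem_top y)
  refine schur hI fun x _ => ?_
  -- it is enough to treat `L` and the elements of the four-group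
  have key : ∀ x : G, (∀ y ∈ L, x * y * x⁻¹ ∈ L) → (∀ y ∈ L, x⁻¹ * y * x ∈ L) →
      (x * b * x⁻¹ = b) → (∑ l ∈ fs L, r (l * b * l⁻¹)) * r x =
        r x * ∑ l ∈ fs L, r (l * b * l⁻¹) := by
    intro x h1 h2 h3
    rw [Finset.mul_sum, Finset.sum_mul, ← sum_cj h1 h2 (fun l => r (l * b * l⁻¹) * r x)]
    refine Finset.sum_congr rfl fun l _ => ?_
    rw [← hm, ← hm]
    congr 1
    calc x * l * x⁻¹ * b * (x * l * x⁻¹)⁻¹ * x
        = x * l * x⁻¹ * (x * b * x⁻¹) * (x * l * x⁻¹)⁻¹ * x := by rw [h3]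
      _ = x * (l * b * l⁻¹) := by group
  have keyL : ∀ x ∈ L, (∑ l ∈ fs L, r (l * b * l⁻¹)) * r x =
        r x * ∑ l ∈ fs L, r (l * b * l⁻¹) := by
    intro x hx
    rw [Finset.mul_sum, Finset.sum_mul, ← sum_left hx (fun l => r (l * b * l⁻¹) * r x)]
    refine Finset.sum_congr rfl fun l _ => ?_
    rw [← hm, ← hm]
    congr 1
    group
  obtain ⟨v, hv, l, hl, rfl⟩ := h.covl x
  have hvv := hv.sq h
  have nv := h.nz hvv
  have hvi : v⁻¹ = v := inv_self hvv
  have keyv := key v (by rw [hvi]; exact nv.nm) (by rw [hvi]; exact nv.nm) (by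
    rw [(hv.cb h).eq]; group)
  rw [hm, ← mul_assoc, keyL l hl, mul_assoc, keyv, mul_assoc]

end Par

/-- **Theorem** (finding 4515), finite groups. -/
theorem Gp.main (h : Gp L a b m) {f0 : G} (hf0 : f0 ∈ Ff L a b)
    (hfa : f0 ∈ Subgroup.closure {x | ∃ l ∈ L, x = l⁻¹ * (a * l * a)}) :
    f0 ∈ Subgroup.closure (((Ff L a b ⊓ Kk L b a : Subgroup G) : Set G) ∪
      ((Ff L a b ⊓ Kk L (a * b) a : Subgroup G) : Set G)) := by
  classical
  by_contra hf0M
  set F := Ff L a b with hF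
  set S : Set G := ((F ⊓ Kk L b a : Subgroup G) : Set G) ∪
      ((F ⊓ Kk L (a * b) a : Subgroup G) : Set G) with hS
  have hsw := h.sw
  have hFsw : Ff L a (a * b) = F := Ff_sw
  have hn : ∀ f ∈ F, ∀ x ∈ Subgroup.closure S, f * x * f⁻¹ ∈ Subgroup.closure S := by
    intro f hf x hx
    refine cl_conj (fun y hy => Subgroup.subset_closure ?_) hx
    rcases hy with hy | hy
    · obtain ⟨h1, h2⟩ := hy
      exact Or.inl ⟨F.mul_mem (F.mul_mem hf h1) (F.inv_mem hf), h.kf hf h2⟩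
    · obtain ⟨h1, h2⟩ := hy
      exact Or.inr ⟨F.mul_mem (F.mul_mem hf h1) (F.inv_mem hf),
        hsw.kf (by rw [hFsw]; exact hf) h2⟩
  obtain ⟨W, _, _, _, t, ht, htI, htM, htf⟩ := exists_tau hn hf0 hf0M
  obtain ⟨sb, hsb, hsbF, hsba, hsbb, hsbt, hsbK⟩ := h.ext_rep ht (fun x hx hk =>
    htM x hx (Subgroup.subset_closure (Or.inl ⟨hx, hk⟩)))
  obtain ⟨sc, hsc, hscF, hsca, hscb, hsct, hscK⟩ := hsw.ext_rep (t := t)
    (by rw [hFsw]; exact ht) (fun x hx hk => by
      rw [hFsw] at hx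
      exact htM x hx (Subgroup.subset_closure (Or.inr ⟨hx, hk⟩)))
  rw [hFsw] at hscF
  have hsbI : Irr F sb := ⟨htI.1, fun N hN => htI.2 N fun x hx u hu => by
    rw [← hsbF x hx]; exact hN x hx u hu⟩
  have hscI : Irr F sc := ⟨htI.1, fun N hN => htI.2 N fun x hx u hu => by
    rw [← hscF x hx]; exact hN x hx u hu⟩
  obtain ⟨E, _, _, _, r, hr, hI, k, hk⟩ := h.exists_odd hsb hsbI
  have hm : ∀ x y, r (x * y) = r x * r y := fun x y =>
    hr.mul x (Subgroup.mem_top x) y (Subgroup.mem_top y)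
  -- parity
  obtain ⟨p, q, e1, e2⟩ := h.parity hr hsb
  obtain ⟨p', q', e1', e2'⟩ := hsw.parity hr hsc
  have ep : p = 2 * k + 1 := by
    have : (p : ℂ) = ((2 * k + 1 : ℤ) : ℂ) := by rw [← e1, hk]
    exact_mod_cast this
  have eF : nn F r sb 1 = nn F r t 1 := by
    rw [nn, nn]
    congr 1
    refine Finset.sum_congr rfl fun x hx => ?_
    rw [hsbF _ (F.inv_mem (F.mul_mem F.one_mem (mem_fs.1 hx)))]
  have eF' : nn F r sc 1 = nn F r t 1 := by
    rw [nn, nn]
    congr 1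
    refine Finset.sum_congr rfl fun x hx => ?_
    rw [hscF _ (F.inv_mem (F.mul_mem F.one_mem (mem_fs.1 hx)))]
  rw [hFsw, eF'] at e2'
  rw [← hF, eF] at e2
  have epp : p + 2 * q = p' + 2 * q' := by
    have : ((p + 2 * q : ℤ) : ℂ) = ((p' + 2 * q' : ℤ) : ℂ) := by rw [← e2, ← e2']
    exact_mod_cast this
  have hp0 : p ≠ 0 := by omega
  have hp0' : p' ≠ 0 := by omega
  -- the character does not vanish on `bL`, `cL`
  have nonz : ∀ {w : G} {s : G → (W →ₗ[ℂ] W)} {p : ℤ}, nn (Cc L w) r s w = (p : ℂ) → p ≠ 0 →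
      ∃ x ∈ L, trace ℂ E (r (w * x)) ≠ 0 := by
    intro w s p h1 h2
    by_contra hcon
    apply h2
    have : nn (Cc L w) r s w = 0 := by
      rw [nn]
      rw [Finset.sum_eq_zero, mul_zero]
      intro x hx
      have : trace ℂ E (r (w * x)) = 0 := by
        by_contra h3
        exact hcon ⟨x, Cc_le _ _ (mem_fs.1 hx), h3⟩
      rw [this, zero_mul]
    rw [this] at h1
    exact_mod_cast h1.symm
  have nzb := nonz e1 hp0
  have nzc := nonz e1' hp0'
  obtain ⟨vb, vb2⟩ := h.val hr hsb hsbI (h.norm hr hI nzb nzc h.bb) hp0 e1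
  obtain ⟨vc, vc2⟩ := hsw.val hr hsc (by rw [hFsw]; exact hscI)
    (h.norm hr hI nzb nzc h.cc) hp0' e1'
  -- values
  set dW : ℂ := (finrank ℂ W : ℂ) with hdW
  have hdW0 : dW ≠ 0 := by
    have : Nontrivial W := htI.1
    have h1 : 0 < finrank ℂ W := finrank_pos
    rw [hdW]
    exact_mod_cast h1.ne'
  have trb : trace ℂ E (r b) = p * dW := by
    have h1 := vb 1 (Subgroup.one_mem _)
    rw [mul_one, hsbb, trace_one] at h1
    exact h1
  have trab : ∀ l ∈ L, trace ℂ E (r (a * (l * b * l⁻¹))) = p' * dW := by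
    intro l hl
    obtain ⟨l1, hl1, d1, hd1, d2, hd2, e⟩ := h.prod_ab hl
    have hd : d1 * d2 ∈ Kk L (a * b) a :=
      Subgroup.mul_mem _ (Subgroup.subset_closure hd1) (Subgroup.subset_closure hd2)
    have hdc := Kk_le hd
    rw [← hr.cj (Subgroup.mem_top _) (Subgroup.mem_top l1), e, vc _ hdc,
      hsct _ (mem_Cc.1 hdc).2, hscK _ hd, trace_one]
  obtain ⟨κ, hκ⟩ := h.scb hr hI
  set dE : ℂ := (finrank ℂ E : ℂ) with hdE
  have k1 : ((fs L).card : ℂ) * (p * dW) = κ * dE := by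
    have h1 := congrArg (trace ℂ E) hκ
    rw [map_sum, map_smul, trace_one, smul_eq_mul] at h1
    rw [← h1]
    have : ∀ l ∈ fs L, trace ℂ E (r (l * b * l⁻¹)) = p * dW := by
      intro l _
      rw [hr.cj (Subgroup.mem_top _) (Subgroup.mem_top l), trb]
    rw [Finset.sum_congr rfl this, Finset.sum_const, nsmul_eq_mul]
  have k2 : ((fs L).card : ℂ) * (p' * dW) = κ * trace ℂ E (r a) := by
    have h1 : trace ℂ E (r a * ∑ l ∈ fs L, r (l * b * l⁻¹)) = trace ℂ E (r a * (κ • 1)) := by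
      rw [hκ]
    rw [Finset.mul_sum, map_sum, mul_smul_comm, mul_one, map_smul, smul_eq_mul] at h1
    rw [← h1]
    have : ∀ l ∈ fs L, trace ℂ E (r a * r (l * b * l⁻¹)) = p' * dW := by
      intro l hl
      rw [← hm, trab l (mem_fs.1 hl)]
    rw [Finset.sum_congr rfl this, Finset.sum_const, nsmul_eq_mul]
  have hpC : (p : ℂ) * p = 1 := by exact_mod_cast vb2
  have hpC' : (p' : ℂ) * p' = 1 := by exact_mod_cast vc2
  have hp1 : (p : ℂ) ≠ 0 := by exact_mod_cast hp0
  have hκ0 : κ ≠ 0 := by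
    intro h0
    rw [h0, zero_mul] at k1
    exact (mul_ne_zero (card_ne L) (mul_ne_zero hp1 hdW0)) k1
  have k3 : trace ℂ E (r a) = (p * p' : ℂ) * dE := by
    apply mul_left_cancel₀ hκ0
    calc κ * trace ℂ E (r a) = ((fs L).card : ℂ) * (p' * dW) := k2.symm
      _ = ((p : ℂ) * p) * (((fs L).card : ℂ) * (p' * dW)) := by rw [hpC, one_mul]
      _ = (p * p') * (((fs L).card : ℂ) * (p * dW)) := by ring
      _ = κ * (p * p' * dE) := by rw [k1]; ring
  have haa : r a * r a = 1 := by rw [← hm, h.aa, hr.one]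
  have hra : r a = 1 ∨ r a = -1 := by
    have hpp : (p * p') * (p * p') = 1 := by
      calc (p * p') * (p * p') = (p * p) * (p' * p') := by ring
        _ = 1 := by rw [vb2, vc2, one_mul]
    rcases mul_self_eq_one_iff.1 hpp with h1 | h1
    · left
      apply inv_of_tr haa
      rw [k3]
      have : (p * p' : ℂ) = 1 := by exact_mod_cast h1
      rw [this, one_mul]
    · right
      apply inv_of_tr' haa
      rw [k3]
      have : (p * p' : ℂ) = -1 := by exact_mod_cast h1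
      rw [this, neg_one_mul]
  -- `[L, a]` acts trivially
  have hrf : r f0 = 1 := by
    have hinv : ∀ x, r x * r x⁻¹ = 1 := fun x => hr.inv (Subgroup.mem_top x)
    set Z : Subgroup G :=
      { carrier := {x | r x = 1}
        mul_mem' := by
          intro x y hx hy
          show r (x * y) = 1
          rw [hm, show r x = 1 from hx, show r y = 1 from hy, one_mul]
        one_mem' := hr.one
        inv_mem' := by
          intro x hx
          show r x⁻¹ = 1
          have h1 := hinv x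
          rw [show r x = 1 from hx, one_mul] at h1
          exact h1 } with hZ
    have hle : Subgroup.closure {x | ∃ l ∈ L, x = l⁻¹ * (a * l * a)} ≤ Z := by
      rw [Subgroup.closure_le]
      rintro x ⟨l, hl, rfl⟩
      show r (l⁻¹ * (a * l * a)) = 1
      rw [hm, hm, hm]
      have h1 := hr.inv' (Subgroup.mem_top l)
      rcases hra with h2 | h2
      · rw [h2, one_mul, mul_one, h1]
      · rw [h2]
        calc r l⁻¹ * (-1 * r l * -1) = r l⁻¹ * r l := by noncomm_ring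
          _ = 1 := h1
    exact hle hfa
  -- an embedding of `W`
  have hmu : Mu F (GJ6.hm r t) := hm_mu (hr.le le_top) ht
  have hPne : Pj F (GJ6.hm r t) ≠ 0 := by
    intro h0
    have h1 := tr_nn (hr.le (le_top : F ≤ ⊤)) ht le_rfl F.one_mem
    rw [h0, mul_zero, map_zero, e2] at h1
    have h2 : (0 : ℤ) = p + 2 * q := by exact_mod_cast h1
    omega
  obtain ⟨T0, hT0⟩ : ∃ T0, Pj F (GJ6.hm r t) T0 ≠ 0 := by
    by_contra hcon
    apply hPne
    ext1 T0
    by_contra h3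
    exact hcon ⟨T0, h3⟩
  set T := Pj F (GJ6.hm r t) T0 with hT
  have hTx : ∀ x ∈ F, ∀ w, T (t x w) = r x (T w) := by
    intro x hx w
    have h1 : GJ6.hm r t x T = T := LinearMap.congr_fun (Pj_left hmu hx) T0
    have h2 : T (t x w) = (GJ6.hm r t x T) (t x w) := by rw [h1]
    rw [h2]
    show r x (T (t x⁻¹ (t x w))) = r x (T w)
    have h3 : t x⁻¹ (t x w) = w := LinearMap.congr_fun (ht.inv' hx) w
    rw [h3]
  have hker : ker T = ⊥ := by
    rcases htI.2 (ker T) (by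
      intro x hx w hw
      rw [LinearMap.mem_ker] at hw ⊢
      rw [hTx x hx, hw, map_zero]) with h1 | h1
    · exact h1
    · exfalso
      apply hT0
      ext w
      have : w ∈ ker T := by rw [h1]; trivial
      exact this
  apply htf
  ext w
  have h1 : T (t f0 w) = T w := by
    rw [hTx f0 hf0, hrf]; rfl
  exact LinearMap.ker_eq_bot.1 hker h1

end Pool.Agent.FourGp.GJ6
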