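import Pool.Agent.Lib.MP_fb3619_al.GJ6.Rep

/-!
# MP_fb3619_al, finding 4515: group theory

Involutions acting on a group of odd order.
-/

set_option autoImplicit false

universe u v w

namespace Pool.Agent.FourGp.GJ6

variable {G : Type u} [Group G]

/-- the elements of `L` commuting with `v` -/
def Cc (L : Subgroup G) (v : G) : Subgroup G := L ⊓ Subgroup.centralizer {v}

theorem mem_Cc {L : Subgroup G} {v x : G} : x ∈ Cc L v ↔ x ∈ L ∧ x * v = v * x := by
  unfold Cc
  rw [Subgroup.mem_inf, Subgroup.mem_centralizer_singleton_iff]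

theorem Cc_le (L : Subgroup G) (v : G) : Cc L v ≤ L := inf_le_left

/-- `v` is an involution (or 1) normalizing `L`, `L` has odd exponent -/
structure Nz (L : Subgroup G) (v : G) (m : ℕ) : Prop where
  vv : v * v = 1
  nm : ∀ x ∈ L, v * x * v ∈ L
  od : ∃ k, m = 2 * k + 1
  ex : ∀ x ∈ L, x ^ m = 1

variable {L : Subgroup G} {v : G} {m : ℕ}

theorem inv_self {z : G} (h : z * z = 1) : z⁻¹ = z := inv_eq_of_mul_eq_one_right h

theorem pow_odd {z : G} (h : z * z = 1) (k : ℕ) : z ^ (2 * k + 1) = z := by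
  rw [pow_succ, pow_mul, pow_two, h, one_pow, one_mul]

theorem Nz.vm (h : Nz L v m) : v ^ m = v := by
  obtain ⟨k, rfl⟩ := h.od
  exact pow_odd h.vv k

theorem Nz.one_of (h : Nz L v m) {x : G} (hx : x ∈ L) (hxx : x * x = 1) : x = 1 := by
  obtain ⟨k, hk⟩ := h.od
  have := h.ex x hx
  rwa [hk, pow_odd hxx] at this

/-- the square root in `L` -/
def sr (m : ℕ) (x : G) : G := x ^ ((m + 1) / 2)

theorem Nz.sr_sq (h : Nz L v m) {x : G} (hx : x ∈ L) : sr m x * sr m x = x := by
  obtain ⟨k, hk⟩ := h.od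
  unfold sr
  rw [← pow_add]
  have : (m + 1) / 2 + (m + 1) / 2 = m + 1 := by omega
  rw [this, pow_succ, h.ex x hx, one_mul]

theorem sr_mem {x : G} (hx : x ∈ L) : sr m x ∈ L := L.pow_mem hx _

theorem sr_inv {x w : G} (hw : w * w = 1) (hx : w * x * w = x⁻¹) :
    w * sr m x * w = (sr m x)⁻¹ := by
  unfold sr
  have h1 : w * x ^ ((m + 1) / 2) * w = (w * x * w) ^ ((m + 1) / 2) := by
    have := conj_pow (i := (m + 1) / 2) (a := w) (b := x)
    rw [inv_self hw] at this
    exact this.symm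
  rw [h1, hx, inv_pow]

/-- the part of order `2` -/
theorem Nz.inv_part (h : Nz L v m) {t : G} (ht : v * t ∈ L) :
    t ^ m * t ^ m = 1 ∧ v * t ^ m ∈ L := by
  have h2 : t * t ∈ L := by
    have e : t * t = v * (v * t) * v * (v * t) := by
      calc t * t = (v * v) * t * (v * v) * t := by rw [h.vv]; group
        _ = _ := by group
    rw [e]
    exact L.mul_mem (h.nm _ ht) ht
  obtain ⟨k, hk⟩ := h.od
  refine ⟨?_, ?_⟩
  · have := h.ex _ h2
    rw [← pow_two, ← pow_mul] at this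
    rw [← pow_add, ← this]
    congr 1
    ring
  · have e : v * t ^ m = (v * t) * (t * t) ^ k := by
      rw [hk, pow_succ', ← mul_assoc, pow_mul, pow_two]
    rw [e]
    exact L.mul_mem ht (L.pow_mem h2 _)

/-- involutions of `vL` are conjugate to `v` -/
theorem Nz.conj (h : Nz L v m) {z : G} (hz : z * z = 1) (hzL : v * z ∈ L) :
    ∃ l ∈ L, z = l * v * l⁻¹ := by
  set s := sr m (v * z) with hs
  have hsL : s ∈ L := sr_mem hzL
  have hss : s * s = v * z := h.sr_sq hzL
  have hinv : v * s * v = s⁻¹ := by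
    refine sr_inv h.vv ?_
    rw [mul_inv_rev, inv_self hz, inv_self h.vv]
    calc v * (v * z) * v = (v * v) * z * v := by group
      _ = z * v := by rw [h.vv, one_mul]
  refine ⟨s⁻¹, L.inv_mem hsL, ?_⟩
  have hinv' : v * s⁻¹ * v = s := by
    have := congrArg (·⁻¹) hinv
    simp only [mul_inv_rev, inv_self h.vv, inv_inv] at this
    rw [mul_assoc]; exact this
  calc z = v * (v * z) := by rw [← mul_assoc, h.vv, one_mul]
    _ = v * (s * s) := by rw [hss]
    _ = v * ((v * s⁻¹ * v) * s) := by rw [hinv']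
    _ = (v * v) * s⁻¹ * v * s := by group
    _ = _ := by rw [h.vv]; group

/-- every element of `vL` has a commuting involution in `vL` -/
theorem Nz.root (h : Nz L v m) {t : G} (ht : v * t ∈ L) :
    ∃ l ∈ L, t ^ m = l * v * l⁻¹ := by
  obtain ⟨h1, h2⟩ := h.inv_part ht
  exact h.conj h1 h2

/-- the involution of `l v x l⁻¹` -/
theorem Nz.part_cj (h : Nz L v m) {l x : G} (hx : x ∈ Cc L v) :
    (l * (v * x) * l⁻¹) ^ m = l * v * l⁻¹ := by
  obtain ⟨hxL, hxv⟩ := mem_Cc.1 hx
  have hc : Commute v x := hxv.symm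
  rw [conj_pow, hc.mul_pow, h.ex x hxL, mul_one, h.vm]

section Fin

variable [Finite G]

/-- the coset sum -/
theorem Nz.coset_sum (h : Nz L v m) (g : G → ℂ)
    (hg : ∀ l ∈ L, ∀ t, v * t ∈ L → g (l * t * l⁻¹) = g t) :
    ((fs L).card : ℂ)⁻¹ * ∑ x ∈ fs L, g (v * x) =
      ((fs (Cc L v)).card : ℂ)⁻¹ * ∑ x ∈ fs (Cc L v), g (v * x) := by
  classical
  -- the root function
  have hex : ∀ y : G, ∃ l : G, y ∈ L → l ∈ L ∧ (v * y) ^ m = l * v * l⁻¹ := by
    intro y
    by_cases hy : y ∈ L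
    · obtain ⟨l, h1, h2⟩ := h.root (t := v * y) (by rw [← mul_assoc, h.vv, one_mul]; exact hy)
      exact ⟨l, fun _ => ⟨h1, h2⟩⟩
    · exact ⟨1, fun h' => absurd h' hy⟩
  choose rt hrt using hex
  have key : ∑ p ∈ (fs L) ×ˢ (fs (Cc L v)), g (p.1 * (v * p.2) * p.1⁻¹) =
      ∑ p ∈ (fs L) ×ˢ (fs (Cc L v)), g (v * p.1) := by
    refine Finset.sum_nbij' (fun p => (v * (p.1 * (v * p.2) * p.1⁻¹),
      (rt (v * (p.1 * (v * p.2) * p.1⁻¹)))⁻¹ * p.1))
      (fun q => (rt q.1 * q.2, v * ((rt q.1 * q.2)⁻¹ * (v * q.1) * (rt q.1 * q.2)))) ?_ ?_ ?_ ?_ ?_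
    · rintro ⟨l, x⟩ hp
      rw [Finset.mem_product] at hp
      obtain ⟨hl, hx⟩ := hp
      have hl' := mem_fs.1 hl
      have hx' := mem_fs.1 hx
      simp only at *
      have hy : v * (l * (v * x) * l⁻¹) ∈ L := by
        have e : v * (l * (v * x) * l⁻¹) = (v * l * v) * x * l⁻¹ := by group
        rw [e]
        exact L.mul_mem (L.mul_mem (h.nm l hl') (Cc_le _ _ hx')) (L.inv_mem hl')
      obtain ⟨r1, r2⟩ := hrt _ hy
      rw [Finset.mem_product]
      refine ⟨mem_fs.2 hy, mem_fs.2 (mem_Cc.2 ⟨L.mul_mem (L.inv_mem r1) hl', ?_⟩)⟩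
      rw [← mul_assoc, h.vv, one_mul, h.part_cj hx'] at r2
      set r := rt (v * (l * (v * x) * l⁻¹))
      calc r⁻¹ * l * v = r⁻¹ * (l * v * l⁻¹) * l := by group
        _ = r⁻¹ * (r * v * r⁻¹) * l := by rw [r2]
        _ = _ := by group
    · rintro ⟨y, c⟩ hq
      rw [Finset.mem_product] at hq
      obtain ⟨hy, hc⟩ := hq
      have hy' := mem_fs.1 hy
      have hc' := mem_fs.1 hc
      simp only at *
      obtain ⟨r1, r2⟩ := hrt _ hy'
      obtain ⟨hcL, hcv⟩ := mem_Cc.1 hc'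
      set l := rt y * c with hl
      have hlL : l ∈ L := L.mul_mem r1 hcL
      have hlv : (v * y) ^ m = l * v * l⁻¹ := by
        rw [r2, hl]
        calc rt y * v * (rt y)⁻¹ = rt y * (v * c) * c⁻¹ * (rt y)⁻¹ := by group
          _ = rt y * (c * v) * c⁻¹ * (rt y)⁻¹ := by rw [hcv]
          _ = _ := by group
      rw [Finset.mem_product]
      refine ⟨mem_fs.2 hlL, mem_fs.2 (mem_Cc.2 ⟨?_, ?_⟩)⟩
      · have e : v * (l⁻¹ * (v * y) * l) = (v * l⁻¹ * v) * y * l := by group
        simp only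
        rw [e]
        exact L.mul_mem (L.mul_mem (h.nm _ (L.inv_mem hlL)) hy') hlL
      · have hcm : Commute (v * y) ((v * y) ^ m) := (Commute.refl (v * y)).pow_right m
        rw [hlv] at hcm
        have e1 : (l⁻¹ * (v * y) * l) * v = v * (l⁻¹ * (v * y) * l) := by
          calc (l⁻¹ * (v * y) * l) * v = l⁻¹ * ((v * y) * (l * v * l⁻¹)) * l := by group
            _ = l⁻¹ * ((l * v * l⁻¹) * (v * y)) * l := by rw [hcm.eq]
            _ = _ := by group
        simp only
        rw [mul_assoc, e1]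
    · rintro ⟨l, x⟩ hp
      rw [Finset.mem_product] at hp
      obtain ⟨hl, hx⟩ := hp
      simp only [Prod.mk.injEq]
      constructor
      · group
      · set r := rt (v * (l * (v * x) * l⁻¹))
        have e : r * (r⁻¹ * l) = l := by group
        rw [e]
        calc v * (l⁻¹ * (v * (v * (l * (v * x) * l⁻¹))) * l)
            = v * (l⁻¹ * ((v * v) * (l * (v * x) * l⁻¹)) * l) := by group
          _ = v * (v * x) := by rw [h.vv]; group
          _ = x := by rw [← mul_assoc, h.vv, one_mul]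
    · rintro ⟨y, c⟩ hq
      simp only
      set l := rt y * c with hl
      have e : v * (l * (v * (v * (l⁻¹ * (v * y) * l))) * l⁻¹) = y := by
        calc v * (l * (v * (v * (l⁻¹ * (v * y) * l))) * l⁻¹)
            = v * (l * ((v * v) * (l⁻¹ * (v * y) * l)) * l⁻¹) := by group
          _ = v * (v * y) := by rw [h.vv]; group
          _ = y := by rw [← mul_assoc, h.vv, one_mul]
      rw [e, hl]
      simp only [Prod.mk.injEq, true_and]
      group
    · rintro ⟨l, x⟩ _
      simp only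
      rw [← mul_assoc v v (l * (v * x) * l⁻¹), h.vv, one_mul]
  rw [Finset.sum_product, Finset.sum_product] at key
  have e1 : ∀ l ∈ fs L, ∑ x ∈ fs (Cc L v), g ((l, x).1 * (v * (l, x).2) * (l, x).1⁻¹) =
      ∑ x ∈ fs (Cc L v), g (v * x) := by
    intro l hl
    refine Finset.sum_congr rfl fun x hx => ?_
    refine hg l (mem_fs.1 hl) _ ?_
    rw [← mul_assoc, h.vv, one_mul]
    exact Cc_le _ _ (mem_fs.1 hx)
  rw [Finset.sum_congr rfl e1, Finset.sum_const] at key
  simp only [Finset.sum_const] at key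
  rw [← Finset.smul_sum, nsmul_eq_mul, nsmul_eq_mul] at key
  have n1 := card_ne L
  have n2 := card_ne (Cc L v)
  field_simp
  rw [mul_comm, ← key]

end Fin

end Pool.Agent.FourGp.GJ6
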