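import Pool.Agent.Lib.MP_fb3619_al.GJ6.Grp

/-!
# MP_fb3619_al, finding 4515: group theory, the four-group
-/

set_option autoImplicit false

universe u v w

namespace Pool.Agent.FourGp.GJ6

variable {G : Type u} [Group G]

/-- `L` is normal of odd exponent `m`, `a` and `b` commute, `G = L V` -/
structure Gp (L : Subgroup G) (a b : G) (m : ℕ) : Prop where
  nrm : ∀ x ∈ L, ∀ g : G, g * x * g⁻¹ ∈ L
  aa : a * a = 1
  bb : b * b = 1
  ab : a * b = b * a
  od : ∃ k, m = 2 * k + 1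
  ex : ∀ x ∈ L, x ^ m = 1
  cov : ∀ g, g ∈ L ∨ a * g ∈ L ∨ b * g ∈ L ∨ a * b * g ∈ L

/-- the elements of the four-group -/
def Vv (a b v : G) : Prop := v = 1 ∨ v = a ∨ v = b ∨ v = a * b

/-- the elements of `C_L(v)` inverted by `w` -/
def Mn (L : Subgroup G) (v w : G) : Set G := {x | x ∈ L ∧ x * v = v * x ∧ w * x * w = x⁻¹}

/-- the group generated by the elements of `C_L(v)` inverted by `w` -/
def Kk (L : Subgroup G) (v w : G) : Subgroup G := Subgroup.closure (Mn L v w)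

/-- the fixed points of the four-group -/
def Ff (L : Subgroup G) (a b : G) : Subgroup G := Cc (Cc L b) a

theorem mem_Ff {L : Subgroup G} {a b x : G} :
    x ∈ Ff L a b ↔ x ∈ L ∧ x * b = b * x ∧ x * a = a * x := by
  unfold Ff
  rw [mem_Cc, mem_Cc, and_assoc]

variable {L : Subgroup G} {a b : G} {m : ℕ}

theorem cc_of (ha : a * a = 1) (hb : b * b = 1) (hab : a * b = b * a) :
    (a * b) * (a * b) = 1 := by
  calc (a * b) * (a * b) = a * (b * a) * b := by group
    _ = a * (a * b) * b := by rw [hab]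
    _ = (a * a) * (b * b) := by group
    _ = 1 := by rw [ha, hb, one_mul]

theorem Gp.cc (h : Gp L a b m) : (a * b) * (a * b) = 1 := cc_of h.aa h.bb h.ab

theorem Gp.nz (h : Gp L a b m) {v : G} (hv : v * v = 1) : Nz L v m :=
  ⟨hv, fun x hx => by
    have := h.nrm x hx v
    rwa [inv_self hv] at this, h.od, h.ex⟩

/-- the symmetry between `b` and `c` -/
theorem Gp.sw (h : Gp L a b m) : Gp L a (a * b) m := by
  refine ⟨h.nrm, h.aa, h.cc, ?_, h.od, h.ex, ?_⟩
  · calc a * (a * b) = a * (b * a) := by rw [h.ab]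
      _ = _ := by group
  · intro g
    have e : a * (a * b) * g = b * g := by rw [← mul_assoc, h.aa, one_mul]
    rw [e]
    rcases h.cov g with h1 | h1 | h1 | h1
    · exact Or.inl h1
    · exact Or.inr (Or.inl h1)
    · exact Or.inr (Or.inr (Or.inr h1))
    · exact Or.inr (Or.inr (Or.inl h1))

theorem Ff_sw : Ff L a (a * b) = Ff L a b := by
  ext x
  rw [mem_Ff, mem_Ff]
  constructor
  · rintro ⟨h1, h2, h3⟩
    refine ⟨h1, ?_, h3⟩
    have c1 : Commute x (a * b) := h2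
    have c2 : Commute x a := h3
    have c3 := c2.inv_right.mul_right c1
    have e : a⁻¹ * (a * b) = b := by group
    rw [e] at c3
    exact c3
  · rintro ⟨h1, h2, h3⟩
    refine ⟨h1, ?_, h3⟩
    have c1 : Commute x b := h2
    have c2 : Commute x a := h3
    exact c2.mul_right c1

theorem Vv.sq (h : Gp L a b m) {v : G} (hv : Vv a b v) : v * v = 1 := by
  rcases hv with rfl | rfl | rfl | rfl
  · rw [one_mul]
  · exact h.aa
  · exact h.bb
  · exact h.cc

theorem Vv.cb (h : Gp L a b m) {v : G} (hv : Vv a b v) : Commute v b := by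
  have hab : Commute a b := h.ab
  rcases hv with rfl | rfl | rfl | rfl
  · exact Commute.one_left b
  · exact hab
  · exact Commute.refl _
  · exact hab.mul_left (Commute.refl _)

theorem Vv.ca (h : Gp L a b m) {v : G} (hv : Vv a b v) : Commute v a := by
  have hab : Commute b a := (show Commute a b from h.ab).symm
  rcases hv with rfl | rfl | rfl | rfl
  · exact Commute.one_left a
  · exact Commute.refl _
  · exact hab
  · exact (Commute.refl a).mul_left hab

theorem Vv.mul (h : Gp L a b m) {v w : G} (hv : Vv a b v) (hw : Vv a b w) : Vv a b (v * w) := by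
  have h1 : a * (a * b) = b := by rw [← mul_assoc, h.aa, one_mul]
  have h2 : b * a = a * b := h.ab.symm
  have h3 : b * (a * b) = a := by rw [← mul_assoc, h2, mul_assoc, h.bb, mul_one]
  have h4 : a * b * a = b := by rw [mul_assoc, h2, h1]
  have h5 : a * b * b = a := by rw [mul_assoc, h.bb, mul_one]
  have h6 := h.cc
  rcases hv with rfl | rfl | rfl | rfl <;> rcases hw with rfl | rfl | rfl | rfl <;>
    simp only [Vv, one_mul, mul_one, h.aa, h.bb, h1, h2, h3, h4, h5, h6, true_or, or_true]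

theorem Gp.covl (h : Gp L a b m) (g : G) : ∃ v, Vv a b v ∧ ∃ l ∈ L, g = l * v := by
  have key : ∀ v : G, v * v = 1 → v * g ∈ L → ∃ l ∈ L, g = l * v := by
    intro v hv hg
    refine ⟨v * (v * g) * v⁻¹, h.nrm _ hg v, ?_⟩
    rw [← mul_assoc, hv, one_mul]; group
  rcases h.cov g with h1 | h1 | h1 | h1
  · exact ⟨1, Or.inl rfl, g, h1, by rw [mul_one]⟩
  · exact ⟨a, Or.inr (Or.inl rfl), key a h.aa h1⟩
  · exact ⟨b, Or.inr (Or.inr (Or.inl rfl)), key b h.bb h1⟩
  · exact ⟨a * b, Or.inr (Or.inr (Or.inr rfl)), key (a * b) h.cc h1⟩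

/-- commutators with `b` lie in `L` -/
theorem Gp.com (h : Gp L a b m) (x : G) : b * (x⁻¹ * b * x) ∈ L := by
  obtain ⟨v, hv, l, hl, e⟩ := h.covl x⁻¹
  have e' : x = v⁻¹ * l⁻¹ := by
    rw [← inv_inv x, e]; group
  have hc : v * b * v⁻¹ = b := by
    rw [(hv.cb h).eq]; group
  have e2 : b * (x⁻¹ * b * x) = (b * l * b) * l⁻¹ := by
    calc b * (x⁻¹ * b * x) = b * (l * (v * b * v⁻¹) * l⁻¹) := by rw [e, e']; group
      _ = _ := by rw [hc]; group
  rw [e2]
  exact L.mul_mem ((h.nz h.bb).nm l hl) (L.inv_mem hl)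

theorem Gp.reg (h : Gp L a b m) {x y : G} (hy : y ∈ Cc L b)
    (hx : (x⁻¹ * (b * y) * x) * b = b * (x⁻¹ * (b * y) * x)) : x * b = b * x := by
  obtain ⟨hyL, hyb⟩ := mem_Cc.1 hy
  have hz : (x⁻¹ * (b * y) * x) ^ m = x⁻¹ * b * x := by
    have := (h.nz h.bb).part_cj (l := 1) hy
    simp only [one_mul, inv_one, mul_one] at this
    have h2 := conj_pow (i := m) (a := x⁻¹) (b := b * y)
    rw [inv_inv] at h2
    rw [h2, this]
  have c1 : Commute (x⁻¹ * b * x) b := by
    rw [← hz]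
    exact (show Commute (x⁻¹ * (b * y) * x) b from hx).pow_left m
  have hu := h.com x
  have huu : (b * (x⁻¹ * b * x)) * (b * (x⁻¹ * b * x)) = 1 := by
    calc (b * (x⁻¹ * b * x)) * (b * (x⁻¹ * b * x))
        = b * ((x⁻¹ * b * x) * b) * (x⁻¹ * b * x) := by group
      _ = b * (b * (x⁻¹ * b * x)) * (x⁻¹ * b * x) := by rw [c1.eq]
      _ = (b * b) * (x⁻¹ * (b * b) * x) := by group
      _ = 1 := by rw [h.bb]; group
  have h1 := (h.nz h.bb).one_of hu huu
  have h2 : x⁻¹ * b * x = b := by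
    calc x⁻¹ * b * x = b⁻¹ * (b * (x⁻¹ * b * x)) := by group
      _ = b := by rw [h1, mul_one, inv_self h.bb]
  calc x * b = x * (x⁻¹ * b * x) := by rw [h2]
    _ = b * x := by group

/-! ### the groups `Kk` -/

theorem Mn_inv {v w x : G} (hw : w * w = 1) (hx : x ∈ Mn L v w) : x⁻¹ ∈ Mn L v w := by
  obtain ⟨h1, h2, h3⟩ := hx
  refine ⟨L.inv_mem h1, (show Commute x v from h2).inv_left.eq, ?_⟩
  have := congrArg (·⁻¹) h3
  simp only [mul_inv_rev, inv_self hw] at this
  rw [mul_assoc]; exact this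

theorem cl_conj {S : Set G} {g : G} (h : ∀ x ∈ S, g * x * g⁻¹ ∈ Subgroup.closure S) {k : G}
    (hk : k ∈ Subgroup.closure S) : g * k * g⁻¹ ∈ Subgroup.closure S := by
  have : Subgroup.closure S ≤ (Subgroup.closure S).comap (MulAut.conj g).toMonoidHom := by
    rw [Subgroup.closure_le]
    intro x hx
    exact h x hx
  exact this hk

theorem Kk_le {v w : G} : Kk L v w ≤ Cc L v := by
  unfold Kk
  rw [Subgroup.closure_le]
  rintro x ⟨h1, h2, _⟩
  exact mem_Cc.2 ⟨h1, h2⟩

theorem Gp.kf (_h : Gp L a b m) {f k : G} (hf : f ∈ Ff L a b) (hk : k ∈ Kk L b a) :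
    f * k * f⁻¹ ∈ Kk L b a := by
  obtain ⟨hfL, hfb, hfa⟩ := mem_Ff.1 hf
  refine cl_conj (fun x hx => Subgroup.subset_closure ?_) hk
  obtain ⟨h1, h2, h3⟩ := hx
  have c1 : Commute f b := hfb
  have c2 : Commute f a := hfa
  have c3 : Commute x b := h2
  refine ⟨L.mul_mem (L.mul_mem hfL h1) (L.inv_mem hfL), (c1.mul_left c3).mul_left c1.inv_left, ?_⟩
  calc a * (f * x * f⁻¹) * a = (a * f) * x * (f⁻¹ * a) := by group
    _ = (f * a) * x * (a * f⁻¹) := by rw [← c2.eq, c2.inv_left.eq]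
    _ = f * (a * x * a) * f⁻¹ := by group
    _ = _ := by rw [h3]; group

theorem Gp.kv (h : Gp L a b m) {v k : G} (hv : Vv a b v) (hk : k ∈ Kk L b a) :
    v * k * v⁻¹ ∈ Kk L b a := by
  refine cl_conj (fun x hx => ?_) hk
  have hx' : x ∈ Kk L b a := Subgroup.subset_closure hx
  obtain ⟨h1, h2, h3⟩ := hx
  have c3 : Commute x b := h2
  have ea : a * x * a⁻¹ = x⁻¹ := by rw [inv_self h.aa]; exact h3
  have eb : b * x * b⁻¹ = x := by rw [← c3.eq]; group
  rcases hv with rfl | rfl | rfl | rfl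
  · have : (1 : G) * x * 1⁻¹ = x := by group
    rw [this]; exact hx'
  · rw [ea]; exact Subgroup.inv_mem _ hx'
  · rw [eb]; exact hx'
  · have : a * b * x * (a * b)⁻¹ = x⁻¹ := by
      calc a * b * x * (a * b)⁻¹ = a * (b * x * b⁻¹) * a⁻¹ := by group
        _ = _ := by rw [eb, ea]
    rw [this]; exact Subgroup.inv_mem _ hx'

/-- decomposition of `C_L(b)` -/
theorem Gp.dec0 (h : Gp L a b m) {l : G} (hl : l ∈ Cc L b) :
    ∃ f ∈ Ff L a b, ∃ s ∈ Mn L b a, l = f * s := by
  obtain ⟨hlL, hlb⟩ := mem_Cc.1 hl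
  have cl : Commute l b := hlb
  have cab : Commute a b := h.ab
  set x := (a * l⁻¹ * a) * l with hx
  have hxL : x ∈ L := L.mul_mem ((h.nz h.aa).nm _ (L.inv_mem hlL)) hlL
  have hxb : Commute x b := ((cab.mul_left cl.inv_left).mul_left cab).mul_left cl
  have hxa : a * x * a = x⁻¹ := by
    rw [hx, mul_inv_rev, mul_inv_rev, mul_inv_rev, inv_inv, inv_self h.aa]
    calc a * (a * l⁻¹ * a * l) * a = (a * a) * l⁻¹ * a * l * a := by group
      _ = _ := by rw [h.aa]; group
  set s := sr m x with hs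
  have hsL : s ∈ L := sr_mem hxL
  have hss : s * s = x := (h.nz h.aa).sr_sq hxL
  have hsa : a * s * a = s⁻¹ := sr_inv h.aa hxa
  have hsb : Commute s b := by
    rw [hs]; exact hxb.pow_left _
  have hsa' : a * s⁻¹ * a = s := by
    have := congrArg (·⁻¹) hsa
    simp only [mul_inv_rev, inv_self h.aa, inv_inv] at this
    rw [mul_assoc]; exact this
  refine ⟨l * s⁻¹, mem_Ff.2 ⟨L.mul_mem hlL (L.inv_mem hsL), cl.mul_left hsb.inv_left, ?_⟩, s,
    ⟨hsL, hsb, hsa⟩, by group⟩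
  have e : a * (l * s⁻¹) * a = l * s⁻¹ := by
    calc a * (l * s⁻¹) * a = (a * l * a) * (a * a) * (a * s⁻¹ * a) := by
          rw [h.aa]
          calc a * (l * s⁻¹) * a = a * l * 1 * s⁻¹ * a := by group
            _ = a * l * (a * a) * s⁻¹ * a := by rw [h.aa]
            _ = _ := by group
      _ = (a * l * a) * s := by rw [h.aa, mul_one, hsa']
      _ = (a * l * a) * (s * s) * s⁻¹ := by group
      _ = (a * l * a) * ((a * l⁻¹ * a) * l) * s⁻¹ := by rw [hss, hx]
      _ = a * l * (a * a) * l⁻¹ * a * l * s⁻¹ := by group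
      _ = a * l * 1 * l⁻¹ * a * l * s⁻¹ := by rw [h.aa]
      _ = (a * a) * l * s⁻¹ := by group
      _ = l * s⁻¹ := by rw [h.aa, one_mul]
  calc l * s⁻¹ * a = (a * (l * s⁻¹) * a) * a := by rw [e]
    _ = a * (l * s⁻¹) * (a * a) := by group
    _ = _ := by rw [h.aa, mul_one]

/-- `x` decomposes with first factor `f` -/
def Rl (L : Subgroup G) (a b x f : G) : Prop :=
  f ∈ Ff L a b ∧ ∃ k ∈ Kk L b a, ∃ v, Vv a b v ∧ x = f * k * v

theorem Gp.rl_ex (h : Gp L a b m) {x : G} (hx : x * b = b * x) : ∃ f, Rl L a b x f := by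
  obtain ⟨v, hv, l, hl, e⟩ := h.covl x
  have hlb : Commute l b := by
    have : l = x * v⁻¹ := by rw [e]; group
    rw [this]
    exact (show Commute x b from hx).mul_left (hv.cb h).inv_left
  obtain ⟨f, hf, s, hs, e2⟩ := h.dec0 (mem_Cc.2 ⟨hl, hlb⟩)
  exact ⟨f, hf, s, Subgroup.subset_closure hs, v, hv, by rw [e, e2]⟩

theorem Gp.rl_mul (h : Gp L a b m) {x y f g : G} (hx : Rl L a b x f) (hy : Rl L a b y g) :
    Rl L a b (x * y) (f * g) := by
  obtain ⟨hf, k, hk, v, hv, rfl⟩ := hx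
  obtain ⟨hg, k', hk', w, hw, rfl⟩ := hy
  obtain ⟨_, hgb, hga⟩ := mem_Ff.1 hg
  have cv : Commute g v := by
    have cb : Commute g b := hgb
    have ca : Commute g a := hga
    rcases hv with rfl | rfl | rfl | rfl
    · exact Commute.one_right g
    · exact ca
    · exact cb
    · exact ca.mul_right cb
  refine ⟨Subgroup.mul_mem _ hf hg, (g⁻¹ * k * g) * (v * k' * v⁻¹), ?_, v * w, hv.mul h hw, ?_⟩
  · refine Subgroup.mul_mem _ ?_ (h.kv hv hk')
    have := h.kf (Subgroup.inv_mem _ hg) hk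
    rwa [inv_inv] at this
  · calc f * k * v * (g * k' * w) = f * k * (v * g) * k' * w := by group
      _ = f * k * (g * v) * k' * w := by rw [cv.eq]
      _ = _ := by group

theorem Gp.rl_uniq (h : Gp L a b m) {x f g : G} (hx : Rl L a b x f) (hy : Rl L a b x g) :
    f⁻¹ * g ∈ Kk L b a := by
  obtain ⟨hf, k, hk, v, hv, e1⟩ := hx
  obtain ⟨hg, k', hk', w, hw, e2⟩ := hy
  have e3 : w * v⁻¹ = (g * k')⁻¹ * (f * k) := by
    calc w * v⁻¹ = (g * k')⁻¹ * (g * k' * w) * v⁻¹ := by group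
      _ = (g * k')⁻¹ * (f * k * v) * v⁻¹ := by rw [← e2, ← e1]
      _ = _ := by group
  have hkL : ∀ k ∈ Kk L b a, k ∈ L := fun k hk => Cc_le _ _ (Kk_le hk)
  have hwL : w * v⁻¹ ∈ L := by
    rw [e3]
    exact L.mul_mem (L.inv_mem (L.mul_mem (mem_Ff.1 hg).1 (hkL _ hk')))
      (L.mul_mem (mem_Ff.1 hf).1 (hkL _ hk))
  have hvi : v⁻¹ = v := inv_self (hv.sq h)
  have hwv : Vv a b (w * v⁻¹) := by rw [hvi]; exact hw.mul h hv
  have h1 := (h.nz h.aa).one_of hwL (hwv.sq h)
  have e4 : g * k' = f * k := by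
    rw [h1] at e3
    calc g * k' = (g * k') * 1 := by rw [mul_one]
      _ = (g * k') * ((g * k')⁻¹ * (f * k)) := by rw [← e3]
      _ = f * k := by group
  have e5 : f⁻¹ * g = k * k'⁻¹ := by
    calc f⁻¹ * g = f⁻¹ * (g * k') * k'⁻¹ := by group
      _ = f⁻¹ * (f * k) * k'⁻¹ := by rw [e4]
      _ = _ := by group
  rw [e5]
  exact Subgroup.mul_mem _ hk (Subgroup.inv_mem _ hk')

theorem Gp.rl_f (_h : Gp L a b m) {f : G} (hf : f ∈ Ff L a b) : Rl L a b f f :=
  ⟨hf, 1, Subgroup.one_mem _, 1, Or.inl rfl, by group⟩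

theorem Gp.rl_one (_h : Gp L a b m) {k v : G} (hk : k ∈ Kk L b a) (hv : Vv a b v) :
    Rl L a b (k * v) 1 :=
  ⟨Subgroup.one_mem _, k, hk, v, hv, by group⟩

/-- extension of a representation of `F` to `C(b)` -/
theorem Gp.ext_rep (h : Gp L a b m) {W : Type v} [AddCommGroup W] [Module ℂ W]
    {t : G → (W →ₗ[ℂ] W)} (ht : Mu (Ff L a b) t)
    (hM : ∀ x ∈ Ff L a b, x ∈ Kk L b a → t x = 1) :
    ∃ s : G → (W →ₗ[ℂ] W), Mu (Subgroup.centralizer {b}) s ∧ (∀ f ∈ Ff L a b, s f = t f) ∧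
      s a = 1 ∧ s b = 1 ∧ (∀ y, y * b = b * y → s (b * y) = s y) ∧ ∀ k ∈ Kk L b a, s k = 1 := by
  classical
  have huniq : ∀ x f g, Rl L a b x f → Rl L a b x g → t f = t g := by
    intro x f g hf hg
    have h1 := h.rl_uniq hf hg
    have h2 : f⁻¹ * g ∈ Ff L a b := Subgroup.mul_mem _ (Subgroup.inv_mem _ hf.1) hg.1
    have h3 := hM _ h2 h1
    have h4 : t g = t f * t (f⁻¹ * g) := by
      rw [← ht.mul f hf.1 _ h2]; congr 1; group
    rw [h4, h3, mul_one]
  set s : G → (W →ₗ[ℂ] W) := fun x =>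
    if hx : ∃ f, Rl L a b x f then t hx.choose else 1 with hs
  have hsx : ∀ x f, Rl L a b x f → s x = t f := by
    intro x f hf
    have hex : ∃ f, Rl L a b x f := ⟨f, hf⟩
    rw [hs]
    simp only [dif_pos hex]
    exact huniq x _ _ hex.choose_spec hf
  have hmu : Mu (Subgroup.centralizer {b}) s := by
    constructor
    · rw [hsx 1 1 (h.rl_f (Subgroup.one_mem _)), ht.one]
    · intro x hx y hy
      rw [Subgroup.mem_centralizer_singleton_iff] at hx hy
      obtain ⟨f, hf⟩ := h.rl_ex hx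
      obtain ⟨g, hg⟩ := h.rl_ex hy
      rw [hsx _ _ (h.rl_mul hf hg), hsx _ _ hf, hsx _ _ hg, ht.mul f hf.1 g hg.1]
  have hv : ∀ v, Vv a b v → s v = 1 := by
    intro v hv
    have := h.rl_one (Subgroup.one_mem _) hv
    rw [one_mul] at this
    rw [hsx _ _ this, ht.one]
  refine ⟨s, hmu, fun f hf => hsx _ _ (h.rl_f hf), hv a (Or.inr (Or.inl rfl)),
    hv b (Or.inr (Or.inr (Or.inl rfl))), ?_, ?_⟩
  · intro y hy
    rw [hmu.mul b (by rw [Subgroup.mem_centralizer_singleton_iff]) y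
      (by rw [Subgroup.mem_centralizer_singleton_iff]; exact hy), hv b
      (Or.inr (Or.inr (Or.inl rfl))), one_mul]
  · intro k hk
    have := h.rl_one hk (Or.inl rfl)
    rw [mul_one] at this
    rw [hsx _ _ this, ht.one]

/-- the product of an involution of `aL` and one of `bL` -/
theorem Gp.prod_ab (h : Gp L a b m) {l : G} (hl : l ∈ L) :
    ∃ l1 ∈ L, ∃ d1 ∈ Mn L (a * b) a, ∃ d2 ∈ Mn L (a * b) a,
      l1 * (a * (l * b * l⁻¹)) * l1⁻¹ = (a * b) * (d1 * d2) := by
  have hcc := h.cc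
  have nc := h.nz hcc
  have na := h.nz h.aa
  have nb := h.nz h.bb
  set c := a * b with hc
  have cab : Commute a b := h.ab
  have hca : Commute c a := (Commute.refl a).mul_left cab.symm
  have hcb : Commute c b := cab.mul_left (Commute.refl b)
  set y := l * b * l⁻¹ with hy
  have hyy : y * y = 1 := by
    calc y * y = l * (b * b) * l⁻¹ := by rw [hy]; group
      _ = 1 := by rw [h.bb]; group
  set t := a * y with ht
  have htL : c * t ∈ L := by
    have e : c * t = (b * l * b) * l⁻¹ := by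
      calc c * t = (c * a) * l * b * l⁻¹ := by rw [ht, hy]; group
        _ = (a * c) * l * b * l⁻¹ := by rw [hca.eq]
        _ = (a * a) * b * l * b * l⁻¹ := by rw [hc]; group
        _ = _ := by rw [h.aa, one_mul]
    rw [e]
    exact L.mul_mem (nb.nm l hl) (L.inv_mem hl)
  obtain ⟨l0, hl0, hz⟩ := nc.root htL
  have hzz := (nc.inv_part htL).1
  have hti : t⁻¹ = y * a := by rw [ht, mul_inv_rev, inv_self h.aa, inv_self hyy]
  have hza : Commute (t ^ m) a := by
    have e1 : a * t * a⁻¹ = t⁻¹ := by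
      rw [hti, ht, inv_self h.aa, ← mul_assoc, h.aa, one_mul]
    have e2 : a * t ^ m * a⁻¹ = t ^ m := by
      rw [← conj_pow, e1, inv_pow, inv_self hzz]
    have : a * t ^ m = t ^ m * a := by
      calc a * t ^ m = (a * t ^ m * a⁻¹) * a := by group
        _ = _ := by rw [e2]
    exact this.symm
  have hzy : Commute (t ^ m) y := by
    have e1 : y * t * y⁻¹ = t⁻¹ := by
      rw [hti, inv_self hyy]
      calc y * t * y = y * a * (y * y) := by rw [ht]; group
        _ = y * a := by rw [hyy, mul_one]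
    have e2 : y * t ^ m * y⁻¹ = t ^ m := by
      rw [← conj_pow, e1, inv_pow, inv_self hzz]
    have : y * t ^ m = t ^ m * y := by
      calc y * t ^ m = (y * t ^ m * y⁻¹) * y := by group
        _ = _ := by rw [e2]
    exact this.symm
  have hcj : c = l0⁻¹ * t ^ m * l0 := by rw [hz]; group
  have cjc : ∀ g : G, Commute (t ^ m) g → Commute (l0⁻¹ * g * l0) c := by
    intro g hg
    show (l0⁻¹ * g * l0) * c = c * (l0⁻¹ * g * l0)
    calc (l0⁻¹ * g * l0) * c = l0⁻¹ * (g * t ^ m) * l0 := by rw [hcj]; group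
      _ = l0⁻¹ * (t ^ m * g) * l0 := by rw [hg.eq]
      _ = c * (l0⁻¹ * g * l0) := by rw [hcj]; group
  set a' := l0⁻¹ * a * l0 with ha'
  set y' := l0⁻¹ * y * l0 with hy'
  have ca' : Commute a' c := cjc a hza
  have cy' : Commute y' c := cjc y hzy
  have ha'2 : a' * a' = 1 := by
    calc a' * a' = l0⁻¹ * (a * a) * l0 := by rw [ha']; group
      _ = 1 := by rw [h.aa]; group
  have hy'2 : y' * y' = 1 := by
    calc y' * y' = l0⁻¹ * (y * y) * l0 := by rw [hy']; group
      _ = 1 := by rw [hyy]; group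
  -- the general fact
  have gen : ∀ d : G, d ∈ L → Commute d c → b * d * b = d⁻¹ → a * d * a = d⁻¹ := by
    intro d _ hdc hdb
    have e1 : a = c * b := by rw [hc, mul_assoc, h.bb, mul_one]
    have e1' : a = b * c := by rw [← hcb.eq]; exact e1
    calc a * d * a = (c * b) * d * (b * c) := by rw [← e1, ← e1']
      _ = c * (b * d * b) * c := by group
      _ = (c * d⁻¹) * c := by rw [hdb]
      _ = (d⁻¹ * c) * c := by rw [hdc.inv_left.eq]
      _ = d⁻¹ * (c * c) := by group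
      _ = d⁻¹ := by rw [hcc, mul_one]
  have gen' : ∀ d : G, d ∈ L → Commute d c → a * d * a = d⁻¹ → b * d * b = d⁻¹ := by
    intro d _ hdc hda
    have e1 : b = a * c := by rw [hc, ← mul_assoc, h.aa, one_mul]
    have e1' : b = c * a := by rw [hca.eq]; exact e1
    calc b * d * b = (c * a) * d * (a * c) := by rw [← e1, ← e1']
      _ = c * (a * d * a) * c := by group
      _ = (c * d⁻¹) * c := by rw [hda]
      _ = (d⁻¹ * c) * c := by rw [hdc.inv_left.eq]
      _ = d⁻¹ * (c * c) := by group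
      _ = d⁻¹ := by rw [hcc, mul_one]
  set d := a * a' with hd
  set d' := b * y' with hd'
  have hdL : d ∈ L := by
    have e : d = (a * l0⁻¹ * a) * l0 := by rw [hd, ha']; group
    rw [e]
    exact L.mul_mem (na.nm _ (L.inv_mem hl0)) hl0
  have hd'L : d' ∈ L := by
    have e : d' = (b * (l0⁻¹ * l) * b) * (l0⁻¹ * l)⁻¹ := by rw [hd', hy', hy]; group
    have hp : l0⁻¹ * l ∈ L := L.mul_mem (L.inv_mem hl0) hl
    rw [e]
    exact L.mul_mem (nb.nm _ hp) (L.inv_mem hp)
  have hdc : Commute d c := hca.symm.mul_left ca'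
  have hd'c : Commute d' c := hcb.symm.mul_left cy'
  have hda : a * d * a = d⁻¹ := by
    rw [hd, mul_inv_rev, inv_self h.aa, inv_self ha'2, ← mul_assoc, h.aa, one_mul]
  have hd'b : b * d' * b = d'⁻¹ := by
    rw [hd', mul_inv_rev, inv_self h.bb, inv_self hy'2, ← mul_assoc, h.bb, one_mul]
  have hdb : b * d * b = d⁻¹ := gen' d hdL hdc hda
  refine ⟨l0⁻¹, L.inv_mem hl0, d⁻¹, Mn_inv h.aa ⟨hdL, hdc, hda⟩, d',
    ⟨hd'L, hd'c, gen d' hd'L hd'c hd'b⟩, ?_⟩
  rw [inv_inv]
  have ea : a' = a * d := by rw [hd, ← mul_assoc, h.aa, one_mul]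
  have ey : y' = b * d' := by rw [hd', ← mul_assoc, h.bb, one_mul]
  calc l0⁻¹ * (a * y) * l0 = a' * y' := by rw [ha', hy']; group
    _ = (a * d) * (b * d') := by rw [ea, ey]
    _ = a * 1 * d * b * d' := by group
    _ = a * (b * b) * d * b * d' := by rw [h.bb]
    _ = (a * b) * (b * d * b) * d' := by group
    _ = c * (d⁻¹ * d') := by rw [hdb, mul_assoc]

end Pool.Agent.FourGp.GJ6
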