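import Pool.Agent.Lib.MP_fb3619_al.GJ6.Mas
import Pool.Agent.Lib.MP_fb3619_al.GJ6.Grp2

/-!
# MP_fb3619_al, finding 4515: the induced representation and the choice of `E`
-/

set_option autoImplicit false

universe u v w

namespace Pool.Agent.FourGp.GJ6

open LinearMap Module

variable {G : Type u} [Group G] [Finite G] {L : Subgroup G} {a b : G} {m : ℕ}

/-- the induced representation -/
theorem Gp.exists_E0 (h : Gp L a b m) {W : Type u} [AddCommGroup W] [Module ℂ W]
    [FiniteDimensional ℂ W] {s : G → (W →ₗ[ℂ] W)} (hs : Mu (Subgroup.centralizer {b}) s) :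
    ∃ (E : Type u) (_ : AddCommGroup E) (_ : Module ℂ E) (_ : FiniteDimensional ℂ E)
      (r : G → (E →ₗ[ℂ] E)), Mu ⊤ r ∧ ∀ y ∈ Cc L b, trace ℂ E (r (b * y)) =
        trace ℂ W (s (b * y)) := by
  classical
  have : Fintype G := Fintype.ofFinite G
  set C : Subgroup G := Subgroup.centralizer {b} with hC
  have memC : ∀ x, x ∈ C ↔ x * b = b * x := fun x => Subgroup.mem_centralizer_singleton_iff
  set lam : G → ((G → W) →ₗ[ℂ] (G → W)) := fun g => mono (fun x => g⁻¹ * x) 1 with hlam
  set rr : G → ((G → W) →ₗ[ℂ] (G → W)) := fun k => mono (fun x => x * k) (s k) with hrr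
  have hmu : Mu C rr := by
    constructor
    · ext f x
      simp [hrr, mono_apply, hs.one]
    · intro x hx y hy
      refine LinearMap.ext fun f => funext fun z => ?_
      simp only [hrr, mono_apply, Module.End.mul_apply]
      rw [hs.mul x hx y hy, mul_assoc]
      rfl
  have hlmu : Mu (⊤ : Subgroup G) lam := by
    constructor
    · ext f x
      simp [hlam, mono_apply]
    · intro x _ y _
      ext f z
      simp [hlam, mono_apply, mul_assoc]
  set P := Pj C rr with hP
  have hPP : P * P = P := Pj_idem hmu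
  have hcomm : ∀ g, lam g * P = P * lam g := by
    intro g
    rw [hP]
    unfold Pj
    rw [mul_smul_comm, smul_mul_assoc, Finset.mul_sum, Finset.sum_mul]
    congr 1
    refine Finset.sum_congr rfl fun k _ => ?_
    refine LinearMap.ext fun f => funext fun x => ?_
    simp only [hlam, hrr, mono_apply, Module.End.mul_apply, Module.End.one_apply]
    rw [mul_assoc]
  have hres : ∀ g, ∀ x ∈ range P, lam g x ∈ range P := by
    rintro g _ ⟨f, rfl⟩
    exact ⟨lam g f, by
      have := LinearMap.congr_fun (hcomm g) f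
      exact this.symm⟩
  refine ⟨range P, inferInstance, inferInstance, inferInstance,
    fun g => (lam g).restrict (hres g), res_mu hlmu hres, ?_⟩
  intro y hy
  simp only
  rw [tr_res hPP (hres (b * y)), hP]
  unfold Pj
  rw [mul_smul_comm, map_smul, Finset.mul_sum, map_sum, smul_eq_mul]
  have e1 : ∀ k ∈ fs C, trace ℂ (G → W) (lam (b * y) * rr k) =
      ∑ x, if (b * y)⁻¹ * x * k = x then trace ℂ W (s k) else 0 := by
    intro k _
    have : lam (b * y) * rr k = mono (fun x => (b * y)⁻¹ * x * k) (s k) := by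
      refine LinearMap.ext fun f => funext fun x => ?_
      simp only [hlam, hrr, mono_apply, Module.End.mul_apply, Module.End.one_apply]
    rw [this, tr_mono]
  rw [Finset.sum_congr rfl e1, Finset.sum_comm]
  set g := b * y with hg
  have hgC : g ∈ C := by
    rw [memC, hg, mul_assoc, (mem_Cc.1 hy).2]
  have e2 : ∀ x : G, ∑ k ∈ fs C, (if g⁻¹ * x * k = x then trace ℂ W (s k) else 0) =
      if x ∈ C then trace ℂ W (s g) else 0 := by
    intro x
    have e3 : ∀ k ∈ fs C, (if g⁻¹ * x * k = x then trace ℂ W (s k) else 0) =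
        if k = x⁻¹ * g * x then trace ℂ W (s k) else 0 := by
      intro k _
      have : g⁻¹ * x * k = x ↔ k = x⁻¹ * g * x := by
        constructor
        · intro h'
          calc k = x⁻¹ * g * (g⁻¹ * x * k) := by group
            _ = _ := by rw [h']
        · rintro rfl; group
      simp only [this]
    rw [Finset.sum_congr rfl e3, Finset.sum_ite_eq']
    by_cases hx : x ∈ C
    · have hm : x⁻¹ * g * x ∈ C := C.mul_mem (C.mul_mem (C.inv_mem hx) hgC) hx
      rw [if_pos (mem_fs.2 hm), if_pos hx, hs.mul _ (C.mul_mem (C.inv_mem hx) hgC) _ hx,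
        hs.mul _ (C.inv_mem hx) _ hgC, LinearMap.trace_mul_comm, ← mul_assoc, hs.inv hx, one_mul]
    · have hm : x⁻¹ * g * x ∉ C := by
        intro hm
        apply hx
        rw [memC] at hm ⊢
        exact h.reg hy hm
      rw [if_neg (fun h' => hm (mem_fs.1 h')), if_neg hx]
  rw [Finset.sum_congr rfl fun x _ => e2 x]
  have e4 : (∑ x : G, if x ∈ C then trace ℂ W (s g) else 0) = ((fs C).card : ℂ) *
      trace ℂ W (s g) := by
    have : ∀ x ∈ (Finset.univ : Finset G), (if x ∈ C then trace ℂ W (s g) else 0) =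
        if x ∈ fs C then trace ℂ W (s g) else 0 := by
      intro x _
      simp only [mem_fs]
    rw [Finset.sum_congr rfl this, Finset.sum_ite_mem, Finset.univ_inter, Finset.sum_const,
      nsmul_eq_mul]
  rw [e4, ← mul_assoc, inv_mul_cancel₀ (card_ne C), one_mul]

/-- the choice of `E` -/
theorem Gp.exists_odd (h : Gp L a b m) {W : Type u} [AddCommGroup W] [Module ℂ W]
    [FiniteDimensional ℂ W] {s : G → (W →ₗ[ℂ] W)} (hs : Mu (Subgroup.centralizer {b}) s)
    (hI : Irr (Ff L a b) s) :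
    ∃ (E : Type u) (_ : AddCommGroup E) (_ : Module ℂ E) (_ : FiniteDimensional ℂ E)
      (r : G → (E →ₗ[ℂ] E)), Mu ⊤ r ∧ Irr ⊤ r ∧
        ∃ k : ℤ, nn (Cc L b) r s b = ((2 * k + 1 : ℤ) : ℂ) := by
  classical
  set C : Subgroup G := Subgroup.centralizer {b} with hC
  have hle : Cc L b ≤ C := inf_le_right
  have hbC : b ∈ C := Subgroup.mem_centralizer_singleton_iff.2 rfl
  have hFle : Ff L a b ≤ Cc L b := Cc_le _ _
  obtain ⟨hnt, _⟩ := id hI
  by_contra hcon
  set wt : G → ℂ := fun g => if b * g ∈ Cc L b then ((fs (Cc L b)).card : ℂ)⁻¹ *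
    trace ℂ W (s g⁻¹) else 0 with hwt
  have hsum : ∀ (E : Type u) [AddCommGroup E] [Module ℂ E] [FiniteDimensional ℂ E]
      (r : G → (E →ₗ[ℂ] E)), ∑ g ∈ fs (⊤ : Subgroup G), wt g * trace ℂ E (r g) =
        nn (Cc L b) r s b := by
    intro E _ _ _ r
    rw [nn, ← sum_left (Subgroup.mem_top b) (fun g => wt g * trace ℂ E (r g)), Finset.mul_sum]
    have e1 : ∀ x ∈ fs (⊤ : Subgroup G), wt (b * x) * trace ℂ E (r (b * x)) =
        if x ∈ fs (Cc L b) then ((fs (Cc L b)).card : ℂ)⁻¹ *
          (trace ℂ E (r (b * x)) * trace ℂ W (s (b * x)⁻¹)) else 0 := by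
      intro x _
      simp only [hwt, mem_fs]
      have : b * (b * x) = x := by rw [← mul_assoc, h.bb, one_mul]
      rw [this]
      split_ifs
      · ring
      · rw [zero_mul]
    rw [Finset.sum_congr rfl e1, Finset.sum_ite_mem]
    have e2 : fs (⊤ : Subgroup G) ∩ fs (Cc L b) = fs (Cc L b) := by
      ext x
      simp [mem_fs]
    rw [e2]
  have hA : ∀ (E : Type u) [AddCommGroup E] [Module ℂ E] [FiniteDimensional ℂ E]
      (r : G → (E →ₗ[ℂ] E)), Mu ⊤ r → Irr ⊤ r →
        ∑ g ∈ fs (⊤ : Subgroup G), wt g * trace ℂ E (r g) ∈ AddSubgroup.zmultiples (2 : ℂ) := by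
    intro E _ _ _ r hr hrI
    rw [hsum]
    obtain ⟨p, _, hp, _⟩ := par (hr.le (le_top : C ≤ ⊤)) hs hle hbC h.bb (by
      intro x hx
      obtain ⟨hxL, hxb⟩ := mem_Cc.1 hx
      have : b * x * b⁻¹ = x := by rw [← hxb]; group
      rw [this]; exact hx)
    rcases Int.even_or_odd p with ⟨q, hq⟩ | ⟨q, hq⟩
    · rw [AddSubgroup.mem_zmultiples_iff]
      refine ⟨q, ?_⟩
      rw [hp, hq]
      simp only [zsmul_eq_mul]
      push_cast; ring
    · exact absurd ⟨E, _, _, inferInstance, r, hr, hrI, q, by rw [hp, hq]⟩ hcon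
  obtain ⟨E, _, _, _, r, hr, hrt⟩ := h.exists_E0 hs
  have key := ind_irr wt _ hA _ E r rfl hr
  rw [hsum] at key
  have e3 : nn (Cc L b) r s b = nn (Cc L b) s s b := by
    rw [nn, nn]
    congr 1
    exact Finset.sum_congr rfl fun x hx => by rw [hrt x (mem_fs.1 hx)]
  have e4 : nn (Cc L b) s s b = 1 := by
    refine norm_one hs hle hbC fun T hT => schur hI fun x hx => hT x (hFle hx)
  rw [e3, e4, AddSubgroup.mem_zmultiples_iff] at key
  obtain ⟨q, hq⟩ := key
  rw [zsmul_eq_mul] at hq
  have : ((q * 2 : ℤ) : ℂ) = ((1 : ℤ) : ℂ) := by push_cast; exact hq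
  have h2 := Int.cast_injective (α := ℂ) this
  omega

end Pool.Agent.FourGp.GJ6
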