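import Pool.Agent.Lib.MP_fb3619_al.GJ6.Fin
import Pool.Agent.Lib.MP_fb3619_al.FF.Iface
import Pool.Agent.Lib.MP_fb3619_al.H4.Abb

/-!
# MP_fb3619_al, finding 4515: the theorem for locally finite groups (GJ)

No hypothesis on the solubility of finite subgroups.
-/

set_option autoImplicit false

universe u

namespace Pool.Agent.FourGp.GJ6

variable {G : Type u} [Group G]

/-- the product of two subgroups, the second normalizing the first -/
theorem cl_union {N N' : Subgroup G} (h : ∀ v ∈ N', ∀ u ∈ N, v * u * v⁻¹ ∈ N) {f : G}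
    (hf : f ∈ Subgroup.closure ((N : Set G) ∪ (N' : Set G))) :
    ∃ u ∈ N, ∃ v ∈ N', f = u * v := by
  set Z : Subgroup G :=
    { carrier := {x | ∃ u ∈ N, ∃ v ∈ N', x = u * v}
      mul_mem' := by
        rintro _ _ ⟨u, hu, v, hv, rfl⟩ ⟨u', hu', v', hv', rfl⟩
        exact ⟨u * (v * u' * v⁻¹), N.mul_mem hu (h v hv u' hu'), v * v', N'.mul_mem hv hv',
          by group⟩
      one_mem' := ⟨1, N.one_mem, 1, N'.one_mem, by group⟩
      inv_mem' := by
        rintro _ ⟨u, hu, v, hv, rfl⟩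
        refine ⟨v⁻¹ * u⁻¹ * v, ?_, v⁻¹, N'.inv_mem hv, by group⟩
        have := h v⁻¹ (N'.inv_mem hv) u⁻¹ (N.inv_mem hu)
        rwa [inv_inv] at this } with hZ
  have hle : Subgroup.closure ((N : Set G) ∪ (N' : Set G)) ≤ Z := by
    rw [Subgroup.closure_le]
    rintro x (hx | hx)
    · exact ⟨x, hx, 1, N'.one_mem, by group⟩
    · exact ⟨1, N.one_mem, x, hx, by group⟩
  exact hle hf

/-- the theorem for finite groups, with products -/
theorem Gp.main' [Finite G] {L : Subgroup G} {a b : G} {m : ℕ} (h : Gp L a b m) {f0 : G}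
    (hf0 : f0 ∈ Ff L a b) (hfa : f0 ∈ Subgroup.closure {x | ∃ l ∈ L, x = l⁻¹ * (a * l * a)}) :
    ∃ u v, u ∈ Ff L a b ∧ u ∈ Kk L b a ∧ v ∈ Ff L a b ∧ v ∈ Kk L (a * b) a ∧ f0 = u * v := by
  have key := h.main hf0 hfa
  obtain ⟨u, hu, v, hv, e⟩ := cl_union (N := Ff L a b ⊓ Kk L b a)
    (N' := Ff L a b ⊓ Kk L (a * b) a) (by
      intro v hv u hu
      obtain ⟨h1, h2⟩ := Subgroup.mem_inf.1 hv
      obtain ⟨h3, h4⟩ := Subgroup.mem_inf.1 hu
      exact Subgroup.mem_inf.2 ⟨Subgroup.mul_mem _ (Subgroup.mul_mem _ h1 h3)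
        (Subgroup.inv_mem _ h1), h.kf h1 h4⟩) key
  obtain ⟨u1, u2⟩ := Subgroup.mem_inf.1 hu
  obtain ⟨v1, v2⟩ := Subgroup.mem_inf.1 hv
  exact ⟨u, v, u1, u2, v1, v2, e⟩

/-- `a, b` commuting involutions normalizing `L` -/
structure Nv (L : Subgroup G) (a b : G) : Prop where
  aa : a * a = 1
  bb : b * b = 1
  ab : a * b = b * a
  La : ∀ x ∈ L, a * x * a ∈ L
  Lb : ∀ x ∈ L, b * x * b ∈ L

namespace Nv

variable {L : Subgroup G} {a b : G}

theorem sq (h : Nv L a b) {v : G} (hv : Vv a b v) : v * v = 1 := by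
  rcases hv with rfl | rfl | rfl | rfl
  · rw [one_mul]
  · exact h.aa
  · exact h.bb
  · exact cc_of h.aa h.bb h.ab

theorem vL (h : Nv L a b) {v : G} (hv : Vv a b v) {x : G} (hx : x ∈ L) : v * x * v⁻¹ ∈ L := by
  have hai : a⁻¹ = a := inv_self h.aa
  have hbi : b⁻¹ = b := inv_self h.bb
  rcases hv with rfl | rfl | rfl | rfl
  · have : (1 : G) * x * 1⁻¹ = x := by group
    rw [this]; exact hx
  · rw [hai]; exact h.La x hx
  · rw [hbi]; exact h.Lb x hx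
  · have : a * b * x * (a * b)⁻¹ = a * (b * x * b) * a := by
      rw [mul_inv_rev, hai, hbi]; group
    rw [this]; exact h.La _ (h.Lb x hx)

theorem mul (h : Nv L a b) {v w : G} (hv : Vv a b v) (hw : Vv a b w) : Vv a b (v * w) := by
  have h1 : a * (a * b) = b := by rw [← mul_assoc, h.aa, one_mul]
  have h2 : b * a = a * b := h.ab.symm
  have h3 : b * (a * b) = a := by rw [← mul_assoc, h2, mul_assoc, h.bb, mul_one]
  have h4 : a * b * a = b := by rw [mul_assoc, h2, h1]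
  have h5 : a * b * b = a := by rw [mul_assoc, h.bb, mul_one]
  have h6 := cc_of h.aa h.bb h.ab
  rcases hv with rfl | rfl | rfl | rfl <;> rcases hw with rfl | rfl | rfl | rfl <;>
    simp only [Vv, one_mul, mul_one, h.aa, h.bb, h1, h2, h3, h4, h5, h6, true_or, or_true]

/-- the group `L V` -/
def LV (h : Nv L a b) : Subgroup G where
  carrier := {x | ∃ l ∈ L, ∃ v, Vv a b v ∧ x = l * v}
  one_mem' := ⟨1, L.one_mem, 1, Or.inl rfl, by group⟩
  mul_mem' := by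
    rintro _ _ ⟨l, hl, v, hv, rfl⟩ ⟨l', hl', v', hv', rfl⟩
    exact ⟨l * (v * l' * v⁻¹), L.mul_mem hl (h.vL hv hl'), v * v', h.mul hv hv', by group⟩
  inv_mem' := by
    rintro _ ⟨l, hl, v, hv, rfl⟩
    have hvi : v⁻¹ = v := inv_self (h.sq hv)
    have hv' : Vv a b v⁻¹ := by rw [hvi]; exact hv
    refine ⟨v⁻¹ * l⁻¹ * v⁻¹⁻¹, h.vL hv' (L.inv_mem hl), v⁻¹, hv', by group⟩

theorem mem_LV (h : Nv L a b) {x : G} : x ∈ h.LV ↔ ∃ l ∈ L, ∃ v, Vv a b v ∧ x = l * v := Iff.rfl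

theorem L_le (h : Nv L a b) : L ≤ h.LV := fun x hx => ⟨x, hx, 1, Or.inl rfl, by group⟩

theorem v_mem (h : Nv L a b) {v : G} (hv : Vv a b v) : v ∈ h.LV :=
  ⟨1, L.one_mem, v, hv, by group⟩

theorem fin (h : Nv L a b) (hf : (L : Set G).Finite) : (h.LV : Set G).Finite := by
  have h1 : ({1, a, b, a * b} : Set G).Finite := Set.toFinite _
  refine (Set.Finite.image2 (fun x y => x * y) hf h1).subset ?_
  rintro x ⟨l, hl, v, hv, rfl⟩
  refine ⟨l, hl, v, ?_, rfl⟩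
  rcases hv with rfl | rfl | rfl | rfl <;> simp

/-- the closures inside a subgroup -/
theorem cl_map {H : Subgroup G} {S : Set G} (hS : ∀ x ∈ S, x ∈ H) {x : H}
    (hx : (x : G) ∈ Subgroup.closure S) : x ∈ Subgroup.closure (H.subtype ⁻¹' S) := by
  have e : (Subgroup.closure (H.subtype ⁻¹' S)).map H.subtype = Subgroup.closure S := by
    rw [MonoidHom.map_closure]
    congr 1
    ext y
    constructor
    · rintro ⟨z, hz, rfl⟩
      exact hz
    · intro hy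
      exact ⟨⟨y, hS y hy⟩, hy, rfl⟩
  rw [← e] at hx
  obtain ⟨y, hy, hyx⟩ := hx
  have : y = x := Subtype.ext hyx
  rwa [← this]

theorem cl_map' {H : Subgroup G} {S : Set H} {T : Set G} (hS : ∀ x ∈ S, (x : G) ∈ T) {x : H}
    (hx : x ∈ Subgroup.closure S) : (x : G) ∈ Subgroup.closure T := by
  have : (Subgroup.closure S) ≤ (Subgroup.closure T).comap H.subtype := by
    rw [Subgroup.closure_le]
    intro y hy
    exact Subgroup.subset_closure (hS y hy)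
  exact this hx

theorem coe_Ff {H : Subgroup G} (a' b' x : H) :
    x ∈ Ff (L.subgroupOf H) a' b' ↔ (x : G) ∈ Ff L (a' : G) (b' : G) := by
  rw [mem_Ff, mem_Ff, Subgroup.mem_subgroupOf]
  constructor
  · rintro ⟨h1, h2, h3⟩
    have h2' := congrArg H.subtype h2
    have h3' := congrArg H.subtype h3
    rw [map_mul, map_mul] at h2' h3'
    exact ⟨h1, h2', h3'⟩
  · rintro ⟨h1, h2, h3⟩
    exact ⟨h1, Subtype.ext h2, Subtype.ext h3⟩

theorem coe_Kk {H : Subgroup G} (v w x : H) (hx : x ∈ Kk (L.subgroupOf H) v w) :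
    (x : G) ∈ Kk L (v : G) (w : G) := by
  refine cl_map' ?_ hx
  rintro y ⟨h1, h2, h3⟩
  have h2' := congrArg H.subtype h2
  have h3' := congrArg H.subtype h3
  rw [map_mul, map_mul] at h2' h3'
  rw [map_inv] at h3'
  exact ⟨h1, h2', h3'⟩

/-- the finite subgroup `H = L V` -/
theorem gp_of {H : Subgroup G} (h : Nv L a b) (haH : a ∈ H) (hbH : b ∈ H) {m : ℕ}
    (hcov : ∀ g ∈ H, ∃ l ∈ L, ∃ v, Vv a b v ∧ g = l * v) (hm : ∃ k, m = 2 * k + 1)
    (hex : ∀ x ∈ L, x ^ m = 1) :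
    Gp (L.subgroupOf H) (⟨a, haH⟩ : H) ⟨b, hbH⟩ m where
  nrm := by
    intro x hx g
    rw [Subgroup.mem_subgroupOf] at hx ⊢
    obtain ⟨l, hl, v, hv, e⟩ := hcov g g.2
    have : ((g * x * g⁻¹ : H) : G) = l * (v * (x : G) * v⁻¹) * l⁻¹ := by
      rw [Subgroup.coe_mul, Subgroup.coe_mul, Subgroup.coe_inv, e]; group
    rw [this]
    exact L.mul_mem (L.mul_mem hl (h.vL hv hx)) (L.inv_mem hl)
  aa := Subtype.ext h.aa
  bb := Subtype.ext h.bb
  ab := Subtype.ext h.ab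
  od := hm
  ex := by
    intro x hx
    apply Subtype.ext
    rw [Subgroup.coe_pow]
    exact hex x hx
  cov := by
    intro g
    obtain ⟨l, hl, v, hv, e⟩ := hcov g g.2
    have key : ∀ w : G, w * w = 1 → Vv a b w → v = w → w * (g : G) ∈ L := by
      rintro w hw hvw rfl
      rw [e]
      have : v * (l * v) = v * l * v⁻¹ := by rw [inv_self hw]; group
      rw [this]
      exact h.vL hv hl
    rcases hv with h1 | h1 | h1 | h1
    · left
      rw [Subgroup.mem_subgroupOf, e, h1, mul_one]; exact hl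
    · right; left
      exact key a h.aa (Or.inr (Or.inl rfl)) h1
    · right; right; left
      exact key b h.bb (Or.inr (Or.inr (Or.inl rfl))) h1
    · right; right; right
      exact key (a * b) (cc_of h.aa h.bb h.ab) (Or.inr (Or.inr (Or.inr rfl))) h1

theorem sub_main {H : Subgroup G} [Finite H] (h : Nv L a b) (hL : L ≤ H) (haH : a ∈ H)
    (hbH : b ∈ H) {m : ℕ}
    (hcov : ∀ g ∈ H, ∃ l ∈ L, ∃ v, Vv a b v ∧ g = l * v) (hm : ∃ k, m = 2 * k + 1)
    (hex : ∀ x ∈ L, x ^ m = 1) {f0 : G} (hf0 : f0 ∈ Ff L a b)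
    (hfa : f0 ∈ Subgroup.closure {x | ∃ l ∈ L, x = l⁻¹ * (a * l * a)}) :
    ∃ u v, u ∈ Ff L a b ∧ u ∈ Kk L b a ∧ v ∈ Ff L a b ∧ v ∈ Kk L (a * b) a ∧ f0 = u * v := by
  have hGp := gp_of h haH hbH hcov hm hex
  have hf0' : (⟨f0, hL (mem_Ff.1 hf0).1⟩ : H) ∈ Ff (L.subgroupOf H) (⟨a, haH⟩ : H) ⟨b, hbH⟩ := by
    rw [coe_Ff]; exact hf0
  have hcl : (⟨f0, hL (mem_Ff.1 hf0).1⟩ : H) ∈ Subgroup.closure
      {x | ∃ l ∈ L.subgroupOf H, x = l⁻¹ * ((⟨a, haH⟩ : H) * l * ⟨a, haH⟩)} := by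
    have h1 : (⟨f0, hL (mem_Ff.1 hf0).1⟩ : H) ∈ Subgroup.closure
        (H.subtype ⁻¹' {x | ∃ l ∈ L, x = l⁻¹ * (a * l * a)}) := by
      refine cl_map ?_ hfa
      rintro x ⟨l, hl, rfl⟩
      exact H.mul_mem (H.inv_mem (hL hl)) (H.mul_mem (H.mul_mem haH (hL hl)) haH)
    refine Subgroup.closure_mono ?_ h1
    rintro x ⟨l, hl, hx⟩
    refine ⟨⟨l, hL hl⟩, Subgroup.mem_subgroupOf.2 hl, Subtype.ext ?_⟩
    exact hx
  obtain ⟨u, v, u1, u2, v1, v2, e⟩ := hGp.main' hf0' hcl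
  have u1' := (coe_Ff _ _ u).1 u1
  have v1' := (coe_Ff _ _ v).1 v1
  have u2' := coe_Kk _ _ u u2
  have v2' := coe_Kk _ _ v v2
  rw [Subgroup.coe_mul] at v2'
  have e' : f0 = (u : G) * (v : G) := by
    have h1 := congrArg H.subtype e
    rw [map_mul] at h1
    exact h1
  exact ⟨u, v, u1', u2', v1', v2', e'⟩

/-- the theorem for a finite subgroup of an arbitrary group -/
theorem fin_main (h : Nv L a b) (hf : (L : Set G).Finite)
    (hodd : ∀ x ∈ L, ∃ n : ℕ, x ^ (2 * n + 1) = 1) {f0 : G} (hf0 : f0 ∈ Ff L a b)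
    (hfa : f0 ∈ Subgroup.closure {x | ∃ l ∈ L, x = l⁻¹ * (a * l * a)}) :
    ∃ u v, u ∈ Ff L a b ∧ u ∈ Kk L b a ∧ v ∈ Ff L a b ∧ v ∈ Kk L (a * b) a ∧ f0 = u * v := by
  have hfinH : Finite h.LV := (h.fin hf).to_subtype
  have hfinL : Finite L := hf.to_subtype
  have hmodd : Odd (Nat.card L) := by
    by_contra hcon
    rw [Nat.not_odd_iff_even] at hcon
    have hp : Fact (Nat.Prime 2) := ⟨Nat.prime_two⟩
    obtain ⟨x, hx⟩ := exists_prime_orderOf_dvd_card' (G := L) 2 hcon.two_dvd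
    obtain ⟨n, hn⟩ := hodd x x.2
    have h1 : x ^ (2 * n + 1) = 1 := Subtype.ext (by rw [Subgroup.coe_pow]; exact hn)
    have h2 := orderOf_dvd_of_pow_eq_one h1
    rw [hx] at h2
    omega
  obtain ⟨k, hk⟩ := hmodd
  refine sub_main (H := h.LV) (m := Nat.card L) h h.L_le (h.v_mem (Or.inr (Or.inl rfl)))
    (h.v_mem (Or.inr (Or.inr (Or.inl rfl)))) (fun g hg => h.mem_LV.1 hg) ⟨k, hk⟩ ?_ hf0 hfa
  intro x hx
  have h1 : (⟨x, hx⟩ : L) ^ (Nat.card L) = 1 := pow_card_eq_one'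
  have h2 := congrArg L.subtype h1
  rw [map_pow] at h2
  exact h2

end Nv

end Pool.Agent.FourGp.GJ6
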