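import Mathlib.LinearAlgebra.Trace
import Mathlib.LinearAlgebra.PID
import Mathlib.LinearAlgebra.Contraction
import Mathlib.LinearAlgebra.Projection
import Mathlib.LinearAlgebra.Eigenspace.Triangularizable
import Mathlib.LinearAlgebra.Matrix.PosDef
import Mathlib.Analysis.Complex.Polynomial.Basic

/-!
# MP_fb3619_al, finding 4515: linear algebra

Traces of idempotents, of involutions commuting with an idempotent, of `T ↦ A T B`, of the inverse
of an operator of finite order, of monomial operators.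
-/

set_option autoImplicit false

universe u v w

namespace Pool.Agent.FourGp.GJ6

open LinearMap Module

section Field

variable {U : Type u} [AddCommGroup U] [Module ℂ U] [FiniteDimensional ℂ U]

/-- the trace of an idempotent is its rank -/
theorem tr_idem {P : U →ₗ[ℂ] U} (h : P * P = P) :
    trace ℂ U P = (finrank ℂ (range P) : ℂ) := by
  have h1 : IsIdempotentElem P := h
  exact (LinearMap.IsIdempotentElem.isProj_range P h1).trace

theorem tr_idem_nat {P : U →ₗ[ℂ] U} (h : P * P = P) : ∃ n : ℕ, trace ℂ U P = (n : ℂ) :=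
  ⟨_, tr_idem h⟩

/-- an involution commuting with an idempotent: the traces are integers of the same parity -/
theorem tr_parity {P T : U →ₗ[ℂ] U} (h : P * P = P) (hT : T * T = 1) (hc : T * P = P * T) :
    ∃ m n : ℤ, trace ℂ U (T * P) = (m : ℂ) ∧ trace ℂ U P = ((m + 2 * n : ℤ) : ℂ) := by
  set Q : U →ₗ[ℂ] U := (2 : ℂ)⁻¹ • (P - T * P) with hQ
  have e1 : (T * P) * (T * P) = P := by
    calc (T * P) * (T * P) = T * (P * T) * P := by noncomm_ring
      _ = T * (T * P) * P := by rw [hc]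
      _ = (T * T) * (P * P) := by noncomm_ring
      _ = P := by rw [hT, h, one_mul]
  have e2 : P * (T * P) = T * P := by
    calc P * (T * P) = (P * T) * P := by noncomm_ring
      _ = T * P * P := by rw [hc]
      _ = T * (P * P) := by noncomm_ring
      _ = _ := by rw [h]
  have e3 : (T * P) * P = T * P := by
    rw [mul_assoc, h]
  have hQi : Q * Q = Q := by
    rw [hQ, smul_mul_smul_comm]
    have : (P - T * P) * (P - T * P) = (2 : ℂ) • (P - T * P) := by
      rw [sub_mul, mul_sub, mul_sub, h, e2, e3, e1, two_smul]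
      abel
    rw [this, smul_smul]
    norm_num
  obtain ⟨r, hr⟩ := tr_idem_nat h
  obtain ⟨s, hs⟩ := tr_idem_nat hQi
  have e4 : trace ℂ U Q = (2 : ℂ)⁻¹ * (trace ℂ U P - trace ℂ U (T * P)) := by
    rw [hQ, map_smul, map_sub, smul_eq_mul]
  refine ⟨(r : ℤ) - 2 * s, s, ?_, ?_⟩
  · have : trace ℂ U (T * P) = trace ℂ U P - 2 * trace ℂ U Q := by
      rw [e4]; ring
    rw [this, hr, hs]
    push_cast; ring
  · rw [hr]; push_cast; ring

/-- an involution whose trace is the dimension is the identity -/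
theorem inv_of_tr {T : U →ₗ[ℂ] U} (hT : T * T = 1) (h : trace ℂ U T = (finrank ℂ U : ℂ)) :
    T = 1 := by
  set Q : U →ₗ[ℂ] U := (2 : ℂ)⁻¹ • (1 - T) with hQ
  have hQi : Q * Q = Q := by
    rw [hQ, smul_mul_smul_comm]
    have : (1 - T) * (1 - T) = (2 : ℂ) • (1 - T) := by
      rw [sub_mul, mul_sub, mul_sub, hT, one_mul, mul_one, two_smul]
      simp only [one_mul]
      abel
    rw [this, smul_smul]
    norm_num
  have e4 : trace ℂ U Q = 0 := by
    rw [hQ, map_smul, map_sub, smul_eq_mul, h, trace_one]; ring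
  have h0 : Q = 0 := by
    have h1 : IsIdempotentElem Q := hQi
    exact (LinearMap.IsIdempotentElem.trace_eq_zero_iff h1).1 e4
  have h1 : (1 : U →ₗ[ℂ] U) - T = 0 := by
    have h2 : (2 : ℂ) • Q = 1 - T := by
      rw [hQ, smul_smul]; norm_num
    rw [← h2, h0, smul_zero]
  exact (sub_eq_zero.1 h1).symm

theorem inv_of_tr' {T : U →ₗ[ℂ] U} (hT : T * T = 1) (h : trace ℂ U T = -(finrank ℂ U : ℂ)) :
    T = -1 := by
  have h1 : (-T) * (-T) = 1 := by rw [neg_mul_neg, hT]
  have h2 : trace ℂ U (-T) = (finrank ℂ U : ℂ) := by rw [map_neg, h, neg_neg]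
  have h3 := inv_of_tr h1 h2
  rw [← neg_neg T, h3]

/-- the trace of a restriction -/
theorem tr_res {P T : U →ₗ[ℂ] U} (h : P * P = P)
    (hT : ∀ x ∈ range P, T x ∈ range P) :
    trace ℂ (range P) (T.restrict hT) = trace ℂ U (T * P) := by
  have h1 : ∀ x, (T * P) x ∈ range P := fun x => hT _ (LinearMap.mem_range_self P x)
  have h2 := trace_restrict_eq_of_forall_mem (range P) (T * P) h1
  rw [← h2]
  congr 1
  ext ⟨x, hx⟩
  obtain ⟨y, rfl⟩ := hx
  show T (P y) = T (P (P y))
  have : P (P y) = P y := by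
    conv_rhs => rw [← h]
    rfl
  rw [this]

/-- the trace on a complementary pair of invariant subspaces -/
theorem tr_compl {N N' : Submodule ℂ U} (hN : IsCompl N N') {T : U →ₗ[ℂ] U}
    (h : ∀ x ∈ N, T x ∈ N) (h' : ∀ x ∈ N', T x ∈ N') :
    trace ℂ U T = trace ℂ N (T.restrict h) + trace ℂ N' (T.restrict h') := by
  set e := Submodule.prodEquivOfIsCompl N N' hN with he
  rw [← trace_prodMap', ← trace_conj' _ e]
  congr 1
  ext x
  obtain ⟨y, rfl⟩ := e.surjective x
  rw [LinearEquiv.conj_apply]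
  simp only [LinearMap.comp_apply, LinearEquiv.coe_coe, LinearEquiv.symm_apply_apply]
  rw [he]
  simp [LinearMap.restrict_apply]

end Field

section Hom

variable {W : Type v} [AddCommGroup W] [Module ℂ W] [FiniteDimensional ℂ W]
variable {E : Type w} [AddCommGroup E] [Module ℂ E] [FiniteDimensional ℂ E]

/-- `T ↦ A T B` -/
def hh (A : E →ₗ[ℂ] E) (B : W →ₗ[ℂ] W) : (W →ₗ[ℂ] E) →ₗ[ℂ] (W →ₗ[ℂ] E) where
  toFun T := A ∘ₗ T ∘ₗ B
  map_add' T T' := by ext; simp
  map_smul' r T := by ext; simp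

omit [FiniteDimensional ℂ W] [FiniteDimensional ℂ E] in
theorem hh_apply (A : E →ₗ[ℂ] E) (B : W →ₗ[ℂ] W) (T : W →ₗ[ℂ] E) : hh A B T = A ∘ₗ T ∘ₗ B := rfl

theorem tr_hh (A : E →ₗ[ℂ] E) (B : W →ₗ[ℂ] W) :
    trace ℂ (W →ₗ[ℂ] E) (hh A B) = trace ℂ W B * trace ℂ E A := by
  have h1 : (dualTensorHomEquivOfBasis (N := E) (Module.finBasis ℂ W)).conj
      (TensorProduct.map (Module.Dual.transpose B) A) = hh A B := by
    ext T x
    obtain ⟨t, rfl⟩ := (dualTensorHomEquivOfBasis (N := E) (Module.finBasis ℂ W)).surjective T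
    rw [LinearEquiv.conj_apply]
    simp only [LinearMap.comp_apply, LinearEquiv.coe_coe, LinearEquiv.symm_apply_apply]
    induction t using TensorProduct.induction_on with
    | zero => simp
    | tmul f y =>
      rw [TensorProduct.map_tmul, dualTensorHomEquivOfBasis_apply, dualTensorHomEquivOfBasis_apply]
      simp [hh_apply, dualTensorHom_apply, Module.Dual.transpose_apply]
    | add s t hs ht => rw [map_add, map_add, map_add, map_add, LinearMap.add_apply,
        LinearMap.add_apply, hs, ht]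
  rw [← h1, trace_conj', trace_tensorProduct', trace_transpose']

end Hom

section Pi

variable {X : Type u} [Fintype X] [DecidableEq X]
variable {W : Type v} [AddCommGroup W] [Module ℂ W] [FiniteDimensional ℂ W]

/-- `f ↦ (x ↦ A (f (t x)))` -/
def mono (t : X → X) (A : W →ₗ[ℂ] W) : (X → W) →ₗ[ℂ] (X → W) where
  toFun f := fun x => A (f (t x))
  map_add' f g := by ext; simp
  map_smul' r f := by ext; simp

omit [Fintype X] [DecidableEq X] [FiniteDimensional ℂ W] in
theorem mono_apply (t : X → X) (A : W →ₗ[ℂ] W) (f : X → W) (x : X) :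
    mono t A f x = A (f (t x)) := rfl

theorem tr_pi (T : (X → W) →ₗ[ℂ] (X → W)) :
    trace ℂ (X → W) T = ∑ x, trace ℂ W ((LinearMap.proj x : (X → W) →ₗ[ℂ] W) ∘ₗ T ∘ₗ
      (LinearMap.single ℂ (fun _ : X => W) x)) := by
  have h1 : T = ∑ x, (T ∘ₗ (LinearMap.single ℂ (fun _ : X => W) x)) ∘ₗ
      (LinearMap.proj x : (X → W) →ₗ[ℂ] W) := by
    ext i w j
    simp only [LinearMap.comp_apply, LinearMap.coe_single, LinearMap.sum_apply,
      LinearMap.proj_apply, Finset.sum_apply]
    rw [Finset.sum_eq_single i]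
    · rw [Pi.single_eq_same]
    · intro k _ hk
      rw [Pi.single_eq_of_ne hk, Pi.single_zero, map_zero]; rfl
    · intro h; exact absurd (Finset.mem_univ _) h
  conv_lhs => rw [h1, map_sum]
  refine Finset.sum_congr rfl fun x _ => ?_
  rw [trace_comp_comm']

theorem tr_mono (t : X → X) (A : W →ₗ[ℂ] W) :
    trace ℂ (X → W) (mono t A) = ∑ x, if t x = x then trace ℂ W A else 0 := by
  rw [tr_pi]
  refine Finset.sum_congr rfl fun x _ => ?_
  split_ifs with h
  · congr 1
    ext w
    simp [mono_apply, h]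
  · have : (LinearMap.proj x : (X → W) →ₗ[ℂ] W) ∘ₗ mono t A ∘ₗ
        (LinearMap.single ℂ (fun _ : X => W) x) = 0 := by
      ext w
      simp [mono_apply, Pi.single_eq_of_ne h]
    rw [this, map_zero]

end Pi

section Conj

open Matrix
open scoped ComplexOrder

theorem mat_conj {n : ℕ} {A B : Matrix (Fin n) (Fin n) ℂ} {m : ℕ} (hm : 0 < m) (hA : A ^ m = 1)
    (hB : A * B = 1) : B.trace = star A.trace := by
  obtain ⟨k, rfl⟩ : ∃ k, m = k + 1 := ⟨m - 1, by omega⟩
  set H : Matrix (Fin n) (Fin n) ℂ := ∑ i ∈ Finset.range (k + 1), (A ^ i)ᴴ * A ^ i with hH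
  have hpos : H.PosDef := by
    rw [hH, Finset.sum_range_succ']
    refine PosDef.posSemidef_add ?_ ?_
    · refine Matrix.posSemidef_sum _ fun i _ => ?_
      exact posSemidef_conjTranspose_mul_self _
    · simp only [pow_zero, conjTranspose_one, mul_one]
      exact PosDef.one
  have hAH : Aᴴ * H * A = H := by
    have e1 : Aᴴ * H * A = ∑ i ∈ Finset.range (k + 1), (A ^ (i + 1))ᴴ * A ^ (i + 1) := by
      rw [hH, Finset.mul_sum, Finset.sum_mul]
      refine Finset.sum_congr rfl fun i _ => ?_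
      rw [pow_succ A i, conjTranspose_mul]
      simp only [mul_assoc]
    rw [e1, hH, Finset.sum_range_succ, Finset.sum_range_succ' (fun i => (A ^ i)ᴴ * A ^ i), hA,
      pow_zero]
  obtain ⟨Hi, h1, h2⟩ : ∃ Hi, H * Hi = 1 ∧ Hi * H = 1 := by
    obtain ⟨u, hu⟩ := hpos.isUnit
    exact ⟨((u⁻¹ : (Matrix (Fin n) (Fin n) ℂ)ˣ) : Matrix (Fin n) (Fin n) ℂ),
      by rw [← hu]; exact u.mul_inv, by rw [← hu]; exact u.inv_mul⟩
  clear_value H
  have e2 : Aᴴ * H = H * B := by
    calc Aᴴ * H = Aᴴ * H * (A * B) := by rw [hB, mul_one]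
      _ = (Aᴴ * H * A) * B := by simp only [mul_assoc]
      _ = H * B := by rw [hAH]
  have e3 : B = Hi * (Aᴴ * H) := by
    rw [e2, ← mul_assoc, h2, one_mul]
  rw [e3, Matrix.trace_mul_comm, mul_assoc, h1, mul_one, Matrix.trace_conjTranspose]

variable {U : Type u} [AddCommGroup U] [Module ℂ U] [FiniteDimensional ℂ U]

theorem tr_conj {A B : U →ₗ[ℂ] U} {m : ℕ} (hm : 0 < m) (hA : A ^ m = 1)
    (hB : A * B = 1) : trace ℂ U B = star (trace ℂ U A) := by
  set b := Module.finBasis ℂ U
  have h1 : (toMatrixAlgEquiv b A) ^ m = 1 := by rw [← map_pow, hA, map_one]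
  have h2 : (toMatrixAlgEquiv b A) * (toMatrixAlgEquiv b B) = 1 := by rw [← map_mul, hB, map_one]
  have h3 := mat_conj hm h1 h2
  rw [trace_eq_matrix_trace ℂ b A, trace_eq_matrix_trace ℂ b B]
  exact h3

end Conj

end Pool.Agent.FourGp.GJ6
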