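import Pool.Agent.Lib.MP_fb3619_al.GJ6.Ind

/-!
# MP_fb3619_al, finding 4515: the theorem for finite groups
-/

set_option autoImplicit false

universe u v w

namespace Pool.Agent.FourGp.GJ6

open LinearMap Module

section Gen

variable {G : Type u} [Group G] [Finite G]

/-- a representation of `F / M` on which `f0` is not trivial -/
theorem exists_tau {F M : Subgroup G} (hn : ∀ f ∈ F, ∀ x ∈ M, f * x * f⁻¹ ∈ M)
    {f0 : G} (hf0 : f0 ∈ F) (h0 : f0 ∉ M) :
    ∃ (W : Type u) (_ : AddCommGroup W) (_ : Module ℂ W) (_ : FiniteDimensional ℂ W)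
      (t : G → (W →ₗ[ℂ] W)), Mu F t ∧ Irr F t ∧ (∀ x ∈ F, x ∈ M → t x = 1) ∧ t f0 ≠ 1 := by
  classical
  have hnorm : (M.subgroupOf F).Normal := by
    constructor
    rintro ⟨x, hx⟩ hxM ⟨g, hg⟩
    exact hn g hg x hxM
  have hq : (QuotientGroup.mk ⟨f0, hf0⟩ : F ⧸ M.subgroupOf F) ≠ 1 := by
    intro h
    rw [QuotientGroup.eq_one_iff] at h
    exact h0 h
  obtain ⟨W, _, _, _, r, hr, hI, hrq⟩ := exists_irr hq
  set t : G → (W →ₗ[ℂ] W) := fun x => if hx : x ∈ F then
    r (QuotientGroup.mk ⟨x, hx⟩ : F ⧸ M.subgroupOf F) else 1 with ht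
  have htx : ∀ x (hx : x ∈ F), t x = r (QuotientGroup.mk ⟨x, hx⟩ : F ⧸ M.subgroupOf F) := by
    intro x hx
    rw [ht]
    simp only [dif_pos hx]
  refine ⟨W, _, _, inferInstance, t, ?_, ?_, ?_, ?_⟩
  · constructor
    · rw [htx 1 F.one_mem]
      exact hr.one
    · intro x hx y hy
      rw [htx _ (F.mul_mem hx hy), htx x hx, htx y hy,
        ← hr.mul _ (Subgroup.mem_top _) _ (Subgroup.mem_top _)]
      rfl
  · obtain ⟨hnt, hN⟩ := hI
    refine ⟨hnt, fun N hN' => hN N ?_⟩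
    intro q _ u hu
    obtain ⟨⟨x, hx⟩, rfl⟩ := QuotientGroup.mk_surjective q
    have := hN' x hx u hu
    rwa [htx x hx] at this
  · intro x hx hxM
    rw [htx x hx]
    have : (QuotientGroup.mk ⟨x, hx⟩ : F ⧸ M.subgroupOf F) = 1 := by
      rw [QuotientGroup.eq_one_iff]
      exact hxM
    rw [this, hr.one]
  · rw [htx f0 hf0]
    exact hrq

variable {U : Type v} [AddCommGroup U] [Module ℂ U]

omit [Finite G] in
theorem Mu.pow {H : Subgroup G} {s : G → (U →ₗ[ℂ] U)} (h : Mu H s) {x : G} (hx : x ∈ H) (n : ℕ) :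
    s x ^ n = s (x ^ n) := by
  induction n with
  | zero => rw [pow_zero, pow_zero, h.one]
  | succ n ih => rw [pow_succ, pow_succ, ih, h.mul _ (H.pow_mem hx n) x hx]

theorem Mu.star [FiniteDimensional ℂ U] {H : Subgroup G} {s : G → (U →ₗ[ℂ] U)} (h : Mu H s)
    {x : G} (hx : x ∈ H) : trace ℂ U (s x⁻¹) = star (trace ℂ U (s x)) := by
  refine tr_conj (m := orderOf x) (orderOf_pos x) ?_ (h.inv hx)
  rw [h.pow hx, pow_orderOf_eq_one, h.one]

omit [Finite G] in
/-- class function -/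
theorem Mu.cj [FiniteDimensional ℂ U] {H : Subgroup G} {s : G → (U →ₗ[ℂ] U)} (h : Mu H s)
    {x y : G} (hx : x ∈ H) (hy : y ∈ H) :
    trace ℂ U (s (y * x * y⁻¹)) = trace ℂ U (s x) := by
  rw [h.mul _ (H.mul_mem hy hx) _ (H.inv_mem hy), h.mul y hy x hx, LinearMap.trace_mul_comm,
    ← mul_assoc, h.inv' hy, one_mul]

omit [Group G] [Finite G] in
/-- Cauchy-Schwarz -/
theorem cs {S : Finset G} (hS : (S.card : ℂ) ≠ 0) {X Y : G → ℂ} {p : ℤ}
    (h1 : (S.card : ℂ)⁻¹ * ∑ x ∈ S, X x * star (X x) = 1)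
    (h2 : (S.card : ℂ)⁻¹ * ∑ x ∈ S, Y x * star (Y x) = 1)
    (h3 : (S.card : ℂ)⁻¹ * ∑ x ∈ S, X x * star (Y x) = (p : ℂ)) (hp : p ≠ 0) :
    (∀ x ∈ S, X x = (p : ℂ) * Y x) ∧ p * p = 1 := by
  have e1 : ∑ x ∈ S, X x * star (X x) = (S.card : ℂ) := by
    rw [inv_mul_eq_iff_eq_mul₀ hS, mul_one] at h1; exact h1
  have e2 : ∑ x ∈ S, Y x * star (Y x) = (S.card : ℂ) := by
    rw [inv_mul_eq_iff_eq_mul₀ hS, mul_one] at h2; exact h2
  have e3 : ∑ x ∈ S, X x * star (Y x) = (S.card : ℂ) * p := by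
    rw [inv_mul_eq_iff_eq_mul₀ hS] at h3; exact h3
  have e4 : ∑ x ∈ S, Y x * star (X x) = (S.card : ℂ) * p := by
    have := congrArg star e3
    rw [star_sum] at this
    have hc : star ((S.card : ℂ) * p) = (S.card : ℂ) * p := by
      simp
    rw [hc] at this
    rw [← this]
    refine Finset.sum_congr rfl fun x _ => ?_
    rw [star_mul', star_star, mul_comm]
  have e5 : ∑ x ∈ S, (X x - p * Y x) * star (X x - p * Y x) = (S.card : ℂ) * (1 - p * p) := by
    have : ∀ x ∈ S, (X x - p * Y x) * star (X x - p * Y x) =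
        X x * star (X x) - p * (X x * star (Y x)) - p * (Y x * star (X x)) +
          p * p * (Y x * star (Y x)) := by
      intro x _
      rw [star_sub, star_mul']
      have hc : star (p : ℂ) = p := by simp
      rw [hc]
      ring
    rw [Finset.sum_congr rfl this, Finset.sum_add_distrib, Finset.sum_sub_distrib,
      Finset.sum_sub_distrib, ← Finset.mul_sum, ← Finset.mul_sum, ← Finset.mul_sum, e1, e2, e3, e4]
    ring
  have e6 : (∑ x ∈ S, Complex.normSq (X x - p * Y x)) = (S.card : ℝ) * (1 - p * p) := by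
    have : (((∑ x ∈ S, Complex.normSq (X x - p * Y x)) : ℝ) : ℂ) =
        (((S.card : ℝ) * (1 - p * p) : ℝ) : ℂ) := by
      push_cast
      rw [← e5]
      refine Finset.sum_congr rfl fun x _ => ?_
      exact (Complex.mul_conj _).symm
    exact_mod_cast this
  have e7 : (0 : ℝ) ≤ (S.card : ℝ) * (1 - p * p) := by
    rw [← e6]
    exact Finset.sum_nonneg fun x _ => Complex.normSq_nonneg _
  have hSp : (0 : ℝ) < S.card := by
    have : S.card ≠ 0 := by
      intro h
      apply hS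
      rw [h, Nat.cast_zero]
    exact_mod_cast Nat.pos_of_ne_zero this
  have e8 : (0 : ℝ) ≤ 1 - p * p := nonneg_of_mul_nonneg_right e7 hSp
  have e9 : p * p ≤ 1 := by
    have : ((p * p : ℤ) : ℝ) ≤ ((1 : ℤ) : ℝ) := by push_cast; linarith
    exact_mod_cast this
  have e10 : p * p = 1 := by
    have : 0 < p * p := by
      rcases lt_or_gt_of_ne hp with h | h
      · exact mul_pos_of_neg_of_neg h h
      · exact mul_pos h h
    omega
  refine ⟨?_, e10⟩
  have e11 : (∑ x ∈ S, Complex.normSq (X x - p * Y x)) = 0 := by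
    rw [e6]
    have : ((p * p : ℤ) : ℝ) = 1 := by rw [e10]; simp
    push_cast at this
    rw [this]; ring
  rw [Finset.sum_eq_zero_iff_of_nonneg fun x _ => Complex.normSq_nonneg _] at e11
  intro x hx
  have := Complex.normSq_eq_zero.1 (e11 x hx)
  exact sub_eq_zero.1 this

end Gen

end Pool.Agent.FourGp.GJ6
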