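import Pool.Agent.Lib.MP_fb3619_al.GJ6.Rep

/-!
# MP_fb3619_al, finding 4515: reduction to irreducible representations, regular representation
-/

set_option autoImplicit false

universe u v w

namespace Pool.Agent.FourGp.GJ6

open LinearMap Module

variable {G : Type u} [Group G] [Finite G]

theorem maschke {E : Type v} [AddCommGroup E] [Module ℂ E] {r : G → (E →ₗ[ℂ] E)} (hr : Mu ⊤ r)
    {N : Submodule ℂ E} (hN : ∀ x, ∀ u ∈ N, r x u ∈ N) :
    ∃ N' : Submodule ℂ E, IsCompl N N' ∧ ∀ x, ∀ u ∈ N', r x u ∈ N' := by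
  obtain ⟨g, hg⟩ := LinearMap.exists_leftInverse_of_injective N.subtype (by simp)
  have hg' : ∀ u (hu : u ∈ N), (g u : E) = u := by
    intro u hu
    have := LinearMap.congr_fun hg ⟨u, hu⟩
    simp only [LinearMap.comp_apply, Submodule.subtype_apply, LinearMap.id_apply] at this
    rw [this]
  set p : E →ₗ[ℂ] E := N.subtype ∘ₗ g with hp
  have hp1 : ∀ u, p u ∈ N := fun u => (g u).2
  have hp2 : ∀ u ∈ N, p u = u := fun u hu => hg' u hu
  set P : E →ₗ[ℂ] E := ((fs (⊤ : Subgroup G)).card : ℂ)⁻¹ • ∑ x ∈ fs (⊤ : Subgroup G),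
    r x * p * r x⁻¹ with hP
  have hP1 : ∀ u, P u ∈ N := by
    intro u
    rw [hP, LinearMap.smul_apply, LinearMap.sum_apply]
    exact N.smul_mem _ (N.sum_mem fun x _ => hN _ _ (hp1 _))
  have hP2 : ∀ u ∈ N, P u = u := by
    intro u hu
    rw [hP, LinearMap.smul_apply, LinearMap.sum_apply]
    have : ∀ x ∈ fs (⊤ : Subgroup G), (r x * p * r x⁻¹) u = u := by
      intro x _
      rw [Module.End.mul_apply, Module.End.mul_apply, hp2 _ (hN _ _ hu)]
      exact LinearMap.congr_fun (hr.inv (x := x) (Subgroup.mem_top x)) u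
    rw [Finset.sum_congr rfl this, Finset.sum_const, ← Nat.cast_smul_eq_nsmul ℂ, smul_smul,
      inv_mul_cancel₀ (card_ne _), one_smul]
  have hP3 : ∀ y, r y * P = P * r y := by
    intro y
    rw [hP, mul_smul_comm, smul_mul_assoc, Finset.mul_sum, Finset.sum_mul]
    congr 1
    rw [← sum_left (Subgroup.mem_top y) (fun x => r x * p * r x⁻¹ * r y)]
    refine Finset.sum_congr rfl fun x _ => ?_
    rw [mul_inv_rev, hr.mul y (Subgroup.mem_top _) x (Subgroup.mem_top _),
      hr.mul x⁻¹ (Subgroup.mem_top _) y⁻¹ (Subgroup.mem_top _)]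
    have := hr.inv' (x := y) (Subgroup.mem_top y)
    calc r y * (r x * p * r x⁻¹) = r y * r x * p * r x⁻¹ * 1 := by
          simp only [mul_assoc, mul_one]
      _ = r y * r x * p * r x⁻¹ * (r y⁻¹ * r y) := by rw [this]
      _ = _ := by simp only [mul_assoc]
  have hproj : LinearMap.IsProj N P := ⟨hP1, hP2⟩
  refine ⟨ker P, hproj.isCompl, ?_⟩
  intro x u hu
  rw [LinearMap.mem_ker] at hu ⊢
  calc P (r x u) = (P * r x) u := rfl
    _ = (r x * P) u := by rw [hP3]
    _ = r x (P u) := rfl
    _ = 0 := by rw [hu, map_zero]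

omit [Finite G] in
theorem res_mu {E : Type v} [AddCommGroup E] [Module ℂ E] {r : G → (E →ₗ[ℂ] E)} (hr : Mu ⊤ r)
    {N : Submodule ℂ E} (hN : ∀ x, ∀ u ∈ N, r x u ∈ N) :
    Mu (⊤ : Subgroup G) (fun x => (r x).restrict (hN x)) := by
  constructor
  · ext ⟨u, hu⟩
    simp [LinearMap.restrict_apply, hr.one]
  · intro x _ y _
    ext ⟨u, hu⟩
    simp only [LinearMap.restrict_apply, Module.End.mul_apply]
    rw [hr.mul x (Subgroup.mem_top _) y (Subgroup.mem_top _)]
    rfl

/-- reduction to irreducible representations -/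
theorem ind_irr (wt : G → ℂ) (A : AddSubgroup ℂ)
    (h : ∀ (E : Type v) [AddCommGroup E] [Module ℂ E] [FiniteDimensional ℂ E]
      (r : G → (E →ₗ[ℂ] E)), Mu ⊤ r → Irr ⊤ r →
        ∑ g ∈ fs (⊤ : Subgroup G), wt g * trace ℂ E (r g) ∈ A) :
    ∀ (n : ℕ) (E : Type v) [AddCommGroup E] [Module ℂ E] [FiniteDimensional ℂ E]
      (r : G → (E →ₗ[ℂ] E)), finrank ℂ E = n → Mu ⊤ r →
        ∑ g ∈ fs (⊤ : Subgroup G), wt g * trace ℂ E (r g) ∈ A := by
  intro n
  induction n using Nat.strong_induction_on with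
  | _ n ih =>
    intro E _ _ _ r hn hr
    by_cases hnt : Nontrivial E
    · by_cases hI : Irr ⊤ r
      · exact h E r hr hI
      · have : ∃ N : Submodule ℂ E, (∀ x, ∀ u ∈ N, r x u ∈ N) ∧ N ≠ ⊥ ∧ N ≠ ⊤ := by
          by_contra hcon
          apply hI
          refine ⟨hnt, fun N hN => ?_⟩
          by_contra h2
          rw [not_or] at h2
          exact hcon ⟨N, fun x u hu => hN x (Subgroup.mem_top x) u hu, h2.1, h2.2⟩
        obtain ⟨N, hN, hb, ht⟩ := this
        obtain ⟨N', hc, hN'⟩ := maschke hr hN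
        have hN't : N' ≠ ⊤ := by
          rintro rfl
          apply hb
          have := hc.inf_eq_bot
          rwa [inf_top_eq] at this
        have l1 : finrank ℂ N < n := by
          rw [← hn]; exact Submodule.finrank_lt ht
        have l2 : finrank ℂ N' < n := by
          rw [← hn]; exact Submodule.finrank_lt hN't
        have i1 := ih _ l1 N _ rfl (res_mu hr hN)
        have i2 := ih _ l2 N' _ rfl (res_mu hr hN')
        have e : ∑ g ∈ fs (⊤ : Subgroup G), wt g * trace ℂ E (r g) =
            (∑ g ∈ fs (⊤ : Subgroup G), wt g * trace ℂ N ((r g).restrict (hN g))) +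
            ∑ g ∈ fs (⊤ : Subgroup G), wt g * trace ℂ N' ((r g).restrict (hN' g)) := by
          rw [← Finset.sum_add_distrib]
          refine Finset.sum_congr rfl fun g _ => ?_
          rw [tr_compl hc (hN g) (hN' g), mul_add]
        rw [e]
        exact A.add_mem i1 i2
    · have hs : Subsingleton E := not_nontrivial_iff_subsingleton.1 hnt
      have : ∀ g ∈ fs (⊤ : Subgroup G), wt g * trace ℂ E (r g) = 0 := by
        intro g _
        have : r g = 0 := by
          ext x; exact Subsingleton.elim _ _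
        rw [this, map_zero, mul_zero]
      rw [Finset.sum_congr rfl this, Finset.sum_const_zero]
      exact A.zero_mem

/-- a group has an irreducible representation on which a given element is not trivial -/
theorem exists_irr {q : G} (hq : q ≠ 1) :
    ∃ (E : Type u) (_ : AddCommGroup E) (_ : Module ℂ E) (_ : FiniteDimensional ℂ E)
      (r : G → (E →ₗ[ℂ] E)), Mu ⊤ r ∧ Irr ⊤ r ∧ r q ≠ 1 := by
  classical
  by_contra hcon
  have hall : ∀ (E : Type u) [AddCommGroup E] [Module ℂ E] [FiniteDimensional ℂ E]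
      (r : G → (E →ₗ[ℂ] E)), Mu ⊤ r → Irr ⊤ r → r q = 1 := by
    intro E _ _ _ r h1 h2
    by_contra h3
    exact hcon ⟨E, _, _, inferInstance, r, h1, h2, h3⟩
  have : Fintype G := Fintype.ofFinite G
  set wt : G → ℂ := fun g => (if g = q then 1 else 0) - (if g = 1 then 1 else 0) with hwt
  have hsum : ∀ f : G → ℂ, ∑ g ∈ fs (⊤ : Subgroup G), wt g * f g = f q - f 1 := by
    intro f
    have : ∀ g ∈ fs (⊤ : Subgroup G), wt g * f g =
        (if g = q then f g else 0) - (if g = 1 then f g else 0) := by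
      intro g _
      show ((if g = q then (1 : ℂ) else 0) - (if g = 1 then (1 : ℂ) else 0)) * f g = _
      rw [sub_mul, ite_mul, ite_mul, one_mul, zero_mul]
    rw [Finset.sum_congr rfl this, Finset.sum_sub_distrib, Finset.sum_ite_eq', Finset.sum_ite_eq',
      if_pos (mem_fs.2 (Subgroup.mem_top _)), if_pos (mem_fs.2 (Subgroup.mem_top _))]
  -- the regular representation
  set r : G → ((G → ℂ) →ₗ[ℂ] (G → ℂ)) := fun g => mono (fun x => g⁻¹ * x) 1 with hr
  have hmu : Mu (⊤ : Subgroup G) r := by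
    constructor
    · ext f x
      simp [hr, mono_apply]
    · intro x _ y _
      ext f z
      simp [hr, mono_apply, mul_assoc]
  have key := ind_irr wt ⊥ (by
    intro E _ _ _ r h1 h2
    rw [hsum, hall E r h1 h2, h1.one, sub_self]
    exact AddSubgroup.zero_mem _) _ (G → ℂ) r rfl hmu
  rw [hsum, AddSubgroup.mem_bot] at key
  rw [hr] at key
  simp only [tr_mono] at key
  rw [Finset.sum_eq_zero, Finset.sum_congr rfl (g := fun _ => (1 : ℂ))] at key
  · simp at key
  · intro x _
    simp
  · intro x _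
    rw [if_neg]
    intro h
    apply hq
    have : q⁻¹ = 1 := by
      calc q⁻¹ = q⁻¹ * x * x⁻¹ := by group
        _ = x * x⁻¹ := by rw [h]
        _ = 1 := by group
    rw [← inv_inv q, this, inv_one]

end Pool.Agent.FourGp.GJ6
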