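import Pool.Agent.Lib.MP_fb3619_al.GJ6.Main

/-!
# MP_fb3619_al, finding 4515: the coset norms of an irreducible character
-/

set_option autoImplicit false

universe u v w

namespace Pool.Agent.FourGp.GJ6

open LinearMap Module

variable {G : Type u} [Group G] [Finite G] {L : Subgroup G} {a b : G} {m : ℕ}
variable {E : Type v} [AddCommGroup E] [Module ℂ E] [FiniteDimensional ℂ E] {r : G → (E →ₗ[ℂ] E)}

omit [Finite G] [FiniteDimensional ℂ E] in
theorem Gp.expand (h : Gp L a b m) (hr : Mu ⊤ r) {N : Submodule ℂ E}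
    (hL : ∀ x ∈ L, ∀ u ∈ N, r x u ∈ N) (ha : ∀ u ∈ N, r a u ∈ N) (hb : ∀ u ∈ N, r b u ∈ N) :
    ∀ x ∈ (⊤ : Subgroup G), ∀ u ∈ N, r x u ∈ N := by
  intro x _ u hu
  obtain ⟨v, hv, l, hl, rfl⟩ := h.covl x
  have hm : ∀ x y, r (x * y) = r x * r y := fun x y =>
    hr.mul x (Subgroup.mem_top x) y (Subgroup.mem_top y)
  rw [hm]
  refine hL l hl _ ?_
  rcases hv with rfl | rfl | rfl | rfl
  · rw [hr.one]; exact hu
  · exact ha u hu
  · exact hb u hu
  · rw [hm]; exact ha _ (hb u hu)

omit [Finite G] in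
/-- an eigenoperator for a nontrivial sign character is zero -/
theorem Gp.zero (h : Gp L a b m) (hr : Mu ⊤ r) (hI : Irr ⊤ r)
    (hb : ∃ x ∈ L, trace ℂ E (r (b * x)) ≠ 0) (hc : ∃ x ∈ L, trace ℂ E (r (a * b * x)) ≠ 0)
    {X : E →ₗ[ℂ] E} (hX : ∀ x ∈ L, X * r x = r x * X) {s t : ℂ}
    (hs : X * r a = s • (r a * X)) (ht : X * r b = t • (r b * X))
    (hst : t = -1 ∨ (t = 1 ∧ s = -1)) : X = 0 := by
  have hm : ∀ x y, r (x * y) = r x * r y := fun x y =>
    hr.mul x (Subgroup.mem_top x) y (Subgroup.mem_top y)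
  have hker : ∀ x ∈ (⊤ : Subgroup G), ∀ u ∈ ker X, r x u ∈ ker X := by
    refine h.expand hr ?_ ?_ ?_
    · intro x hx u hu
      rw [LinearMap.mem_ker] at hu ⊢
      calc X (r x u) = (X * r x) u := rfl
        _ = (r x * X) u := by rw [hX x hx]
        _ = r x (X u) := rfl
        _ = 0 := by rw [hu, map_zero]
    · intro u hu
      rw [LinearMap.mem_ker] at hu ⊢
      calc X (r a u) = (X * r a) u := rfl
        _ = s • (r a (X u)) := by rw [hs]; rfl
        _ = 0 := by rw [hu, map_zero, smul_zero]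
    · intro u hu
      rw [LinearMap.mem_ker] at hu ⊢
      calc X (r b u) = (X * r b) u := rfl
        _ = t • (r b (X u)) := by rw [ht]; rfl
        _ = 0 := by rw [hu, map_zero, smul_zero]
  rcases hI.2 (ker X) hker with hk | hk
  · exfalso
    obtain ⟨X', h1, h2⟩ : ∃ X' : E →ₗ[ℂ] E, X' * X = 1 ∧ X * X' = 1 := by
      set e := LinearEquiv.ofInjectiveEndo X (LinearMap.ker_eq_bot.1 hk) with he
      refine ⟨e.symm, ?_, ?_⟩
      · ext u
        have : e u = X u := by rw [he]; rfl
        rw [Module.End.mul_apply, ← this]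
        simp
      · ext u
        rw [Module.End.mul_apply]
        have : ∀ w, X w = e w := fun w => by rw [he]; rfl
        rw [this]
        simp
    -- the trace of an operator anticommuting with `X`
    have anti : ∀ Y : E →ₗ[ℂ] E, X * Y = (-1 : ℂ) • (Y * X) → trace ℂ E Y = 0 := by
      intro Y hY
      have e1 : Y = X' * (X * Y) := by rw [← mul_assoc, h1, one_mul]
      have e2 : trace ℂ E Y = - trace ℂ E Y := by
        conv_lhs => rw [e1, hY, mul_smul_comm, map_smul, ← mul_assoc, LinearMap.trace_mul_comm,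
          ← mul_assoc, h2, one_mul, neg_smul, one_smul]
      have e3 : (2 : ℂ) * trace ℂ E Y = 0 := by
        linear_combination e2
      rcases mul_eq_zero.1 e3 with h' | h'
      · norm_num at h'
      · exact h'
    rcases hst with rfl | ⟨rfl, rfl⟩
    · obtain ⟨x, hx, hne⟩ := hb
      apply hne
      apply anti
      rw [hm, ← mul_assoc, ht, smul_mul_assoc, mul_assoc, hX x hx, mul_assoc]
    · obtain ⟨x, hx, hne⟩ := hc
      apply hne
      apply anti
      rw [one_smul] at ht
      rw [hm, hm, ← mul_assoc, ← mul_assoc, hs, smul_mul_assoc, smul_mul_assoc, mul_assoc (r a) X,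
        ht, ← mul_assoc, mul_assoc _ X, hX x hx]
      simp only [mul_assoc]
  · ext u
    have : u ∈ ker X := by rw [hk]; trivial
    exact this

omit [Finite G] in
/-- operators commuting with `L` are scalar -/
theorem Gp.scal (h : Gp L a b m) (hr : Mu ⊤ r) (hI : Irr ⊤ r)
    (hb : ∃ x ∈ L, trace ℂ E (r (b * x)) ≠ 0) (hc : ∃ x ∈ L, trace ℂ E (r (a * b * x)) ≠ 0)
    {T : E →ₗ[ℂ] E} (hT : ∀ x ∈ L, T * r x = r x * T) : ∃ c : ℂ, T = c • 1 := by
  have hm : ∀ x y, r (x * y) = r x * r y := fun x y =>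
    hr.mul x (Subgroup.mem_top x) y (Subgroup.mem_top y)
  set A := r a with hA
  set B := r b with hB
  have hAA : A * A = 1 := by rw [hA, ← hm, h.aa, hr.one]
  have hBB : B * B = 1 := by rw [hB, ← hm, h.bb, hr.one]
  have hAB : A * B = B * A := by rw [hA, hB, ← hm, ← hm, h.ab]
  have cv : ∀ v : G, v * v = 1 → ∀ S : E →ₗ[ℂ] E, (∀ x ∈ L, S * r x = r x * S) →
      ∀ x ∈ L, (r v * S * r v) * r x = r x * (r v * S * r v) := by
    intro v hv S hS x hx
    have hx' : v * x * v ∈ L := (h.nz hv).nm x hx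
    have e1 : r v * r x = r (v * x * v) * r v := by
      rw [← hm, ← hm]
      congr 1
      rw [mul_assoc, hv, mul_one]
    have e2 : r x * r v = r v * r (v * x * v) := by
      rw [← hm, ← hm]
      congr 1
      rw [← mul_assoc, ← mul_assoc, hv, one_mul]
    calc (r v * S * r v) * r x = r v * S * (r v * r x) := by simp only [mul_assoc]
      _ = r v * (S * r (v * x * v)) * r v := by rw [e1]; simp only [mul_assoc]
      _ = r v * (r (v * x * v) * S) * r v := by rw [hS _ hx']
      _ = (r v * r (v * x * v)) * S * r v := by simp only [mul_assoc]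
      _ = (r x * r v) * S * r v := by rw [e2]
      _ = _ := by simp only [mul_assoc]
  set TA := A * T * A with hTA
  set TB := B * T * B with hTB
  set TC := A * TB * A with hTC
  have cA := cv a h.aa T hT
  have cB := cv b h.bb T hT
  have cC := cv a h.aa TB cB
  rw [← hA, ← hTA] at cA
  rw [← hB, ← hTB] at cB
  rw [← hA, ← hTC] at cC
  -- commutation with `A`
  have a1 : T * A = A * TA := by
    rw [hTA, ← mul_assoc, ← mul_assoc, hAA, one_mul]
  have a2 : TA * A = A * T := by
    rw [hTA, mul_assoc, hAA, mul_one]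
  have a3 : TB * A = A * TC := by
    rw [hTC, ← mul_assoc, ← mul_assoc, hAA, one_mul]
  have a4 : TC * A = A * TB := by
    rw [hTC, mul_assoc, hAA, mul_one]
  -- commutation with `B`
  have hTC' : TC = B * TA * B := by
    calc TC = (A * B) * T * (B * A) := by rw [hTC, hTB]; simp only [mul_assoc]
      _ = (B * A) * T * (A * B) := by rw [hAB]
      _ = _ := by rw [hTA]; simp only [mul_assoc]
  have b1 : T * B = B * TB := by
    rw [hTB, ← mul_assoc, ← mul_assoc, hBB, one_mul]
  have b2 : TB * B = B * T := by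
    rw [hTB, mul_assoc, hBB, mul_one]
  have b3 : TA * B = B * TC := by
    rw [hTC', ← mul_assoc, ← mul_assoc, hBB, one_mul]
  have b4 : TC * B = B * TA := by
    rw [hTC', mul_assoc, hBB, mul_one]
  -- the sign components
  have z1 : T - TA + TB - TC = 0 := by
    refine h.zero hr hI hb hc (s := -1) (t := 1) ?_ ?_ ?_ (Or.inr ⟨rfl, rfl⟩)
    · intro x hx
      rw [sub_mul, add_mul, sub_mul, mul_sub, mul_add, mul_sub, hT x hx, cA x hx, cB x hx, cC x hx]
    · rw [← hA, sub_mul, add_mul, sub_mul, mul_sub, mul_add, mul_sub, a1, a2, a3, a4, neg_smul,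
        one_smul]
      abel
    · rw [← hB, sub_mul, add_mul, sub_mul, mul_sub, mul_add, mul_sub, b1, b2, b3, b4, one_smul]
      abel
  have z2 : T + TA - TB - TC = 0 := by
    refine h.zero hr hI hb hc (s := 1) (t := -1) ?_ ?_ ?_ (Or.inl rfl)
    · intro x hx
      rw [sub_mul, sub_mul, add_mul, mul_sub, mul_sub, mul_add, hT x hx, cA x hx, cB x hx, cC x hx]
    · rw [← hA, sub_mul, sub_mul, add_mul, mul_sub, mul_sub, mul_add, a1, a2, a3, a4, one_smul]
      abel
    · rw [← hB, sub_mul, sub_mul, add_mul, mul_sub, mul_sub, mul_add, b1, b2, b3, b4, neg_smul,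
        one_smul]
      abel
  have z3 : T - TA - TB + TC = 0 := by
    refine h.zero hr hI hb hc (s := -1) (t := -1) ?_ ?_ ?_ (Or.inl rfl)
    · intro x hx
      rw [add_mul, sub_mul, sub_mul, mul_add, mul_sub, mul_sub, hT x hx, cA x hx, cB x hx, cC x hx]
    · rw [← hA, add_mul, sub_mul, sub_mul, mul_add, mul_sub, mul_sub, a1, a2, a3, a4, neg_smul,
        one_smul]
      abel
    · rw [← hB, add_mul, sub_mul, sub_mul, mul_add, mul_sub, mul_sub, b1, b2, b3, b4, neg_smul,
        one_smul]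
      abel
  obtain ⟨c, hc'⟩ : ∃ c : ℂ, T + TA + TB + TC = c • 1 := by
    refine schur hI fun x _ => ?_
    obtain ⟨v, hv, l, hl, rfl⟩ := h.covl x
    have comL : (T + TA + TB + TC) * r l = r l * (T + TA + TB + TC) := by
      rw [add_mul, add_mul, add_mul, mul_add, mul_add, mul_add, hT l hl, cA l hl, cB l hl, cC l hl]
    have comA : (T + TA + TB + TC) * A = A * (T + TA + TB + TC) := by
      rw [add_mul, add_mul, add_mul, mul_add, mul_add, mul_add, a1, a2, a3, a4]
      abel
    have comB : (T + TA + TB + TC) * B = B * (T + TA + TB + TC) := by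
      rw [add_mul, add_mul, add_mul, mul_add, mul_add, mul_add, b1, b2, b3, b4]
      abel
    have comV : (T + TA + TB + TC) * r v = r v * (T + TA + TB + TC) := by
      rcases hv with rfl | rfl | rfl | rfl
      · rw [hr.one, mul_one, one_mul]
      · exact comA
      · exact comB
      · rw [hm, ← mul_assoc, comA, mul_assoc, comB, mul_assoc]
    rw [hm, ← mul_assoc, comL, mul_assoc, comV, mul_assoc]
  refine ⟨c / 4, ?_⟩
  have e : (4 : ℂ) • T = c • 1 := by
    have : (4 : ℂ) • T = (T + TA + TB + TC) + (T - TA + TB - TC) + (T + TA - TB - TC) +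
        (T - TA - TB + TC) := by
      module
    rw [this, z1, z2, z3, hc']
    abel
  calc T = (4 : ℂ)⁻¹ • ((4 : ℂ) • T) := by rw [smul_smul]; norm_num
    _ = (c / 4) • 1 := by rw [e, smul_smul, div_eq_mul_inv, mul_comm]

/-- the coset norms -/
theorem Gp.norm (h : Gp L a b m) (hr : Mu ⊤ r) (hI : Irr ⊤ r)
    (hb : ∃ x ∈ L, trace ℂ E (r (b * x)) ≠ 0) (hc : ∃ x ∈ L, trace ℂ E (r (a * b * x)) ≠ 0)
    {v : G} (hv : v * v = 1) : nn (Cc L v) r r v = 1 := by
  have hnt : Nontrivial E := hI.1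
  have hm : ∀ x y, r (x * y) = r x * r y := fun x y =>
    hr.mul x (Subgroup.mem_top x) y (Subgroup.mem_top y)
  have h1 : nn L r r v = 1 :=
    norm_one hr le_top (Subgroup.mem_top v) fun T hT => h.scal hr hI hb hc hT
  have h2 := (h.nz hv).coset_sum (fun t => trace ℂ E (r t) * trace ℂ E (r t⁻¹)) (by
    intro l _ t _
    have e : (l * t * l⁻¹)⁻¹ = l * t⁻¹ * l⁻¹ := by group
    rw [e, hr.cj (Subgroup.mem_top t) (Subgroup.mem_top l),
      hr.cj (Subgroup.mem_top t⁻¹) (Subgroup.mem_top l)])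
  rw [nn] at h1 ⊢
  rw [← h2]
  exact h1

end Pool.Agent.FourGp.GJ6
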