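import Pool.Agent.Lib.MP_fb3619_al.GJ6.Lin

/-!
# MP_fb3619_al, finding 4515: averaging operators, Schur, Maschke

`Mu H s`: the map `s` from the group to the endomorphisms is multiplicative on the subgroup `H`.
-/

set_option autoImplicit false

universe u v w

namespace Pool.Agent.FourGp.GJ6

open LinearMap Module

variable {G : Type u} [Group G] [Finite G]

/-- the elements of a subgroup -/
noncomputable def fs (H : Subgroup G) : Finset G := (Set.toFinite (H : Set G)).toFinset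

theorem mem_fs {H : Subgroup G} {x : G} : x ∈ fs H ↔ x ∈ H := by simp [fs]

theorem card_pos (H : Subgroup G) : 0 < (fs H).card := Finset.card_pos.2 ⟨1, mem_fs.2 H.one_mem⟩

theorem card_ne (H : Subgroup G) : ((fs H).card : ℂ) ≠ 0 := by
  exact_mod_cast (card_pos H).ne'

section Sum

variable {M : Type v} [AddCommMonoid M]

theorem sum_left {H : Subgroup G} {h : G} (hh : h ∈ H) (f : G → M) :
    ∑ x ∈ fs H, f (h * x) = ∑ x ∈ fs H, f x := by
  refine Finset.sum_nbij' (fun x => h * x) (fun x => h⁻¹ * x) ?_ ?_ ?_ ?_ ?_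
  · intro x hx; exact mem_fs.2 (H.mul_mem hh (mem_fs.1 hx))
  · intro x hx; exact mem_fs.2 (H.mul_mem (H.inv_mem hh) (mem_fs.1 hx))
  · intro x _; simp
  · intro x _; simp
  · intro x _; rfl

theorem sum_inv {H : Subgroup G} (f : G → M) :
    ∑ x ∈ fs H, f x⁻¹ = ∑ x ∈ fs H, f x := by
  refine Finset.sum_nbij' (fun x => x⁻¹) (fun x => x⁻¹) ?_ ?_ ?_ ?_ ?_
  · intro x hx; exact mem_fs.2 (H.inv_mem (mem_fs.1 hx))
  · intro x hx; exact mem_fs.2 (H.inv_mem (mem_fs.1 hx))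
  · intro x _; simp
  · intro x _; simp
  · intro x _; rfl

theorem sum_cj {H : Subgroup G} {v : G} (h1 : ∀ x ∈ H, v * x * v⁻¹ ∈ H)
    (h2 : ∀ x ∈ H, v⁻¹ * x * v ∈ H) (f : G → M) :
    ∑ x ∈ fs H, f (v * x * v⁻¹) = ∑ x ∈ fs H, f x := by
  refine Finset.sum_nbij' (fun x => v * x * v⁻¹) (fun x => v⁻¹ * x * v) ?_ ?_ ?_ ?_ ?_
  · intro x hx; exact mem_fs.2 (h1 x (mem_fs.1 hx))
  · intro x hx; exact mem_fs.2 (h2 x (mem_fs.1 hx))
  · intro x _; group
  · intro x _; group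
  · intro x _; rfl

end Sum

section Mu

variable {U : Type v} [AddCommGroup U] [Module ℂ U]

/-- multiplicative on a subgroup -/
structure Mu (H : Subgroup G) (s : G → (U →ₗ[ℂ] U)) : Prop where
  one : s 1 = 1
  mul : ∀ x ∈ H, ∀ y ∈ H, s (x * y) = s x * s y

omit [Finite G] in
theorem Mu.le {H H' : Subgroup G} {s : G → (U →ₗ[ℂ] U)} (h : Mu H' s) (hl : H ≤ H') : Mu H s :=
  ⟨h.one, fun x hx y hy => h.mul x (hl hx) y (hl hy)⟩

omit [Finite G] in
theorem Mu.inv {H : Subgroup G} {s : G → (U →ₗ[ℂ] U)} (h : Mu H s) {x : G} (hx : x ∈ H) :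
    s x * s x⁻¹ = 1 := by
  rw [← h.mul x hx _ (H.inv_mem hx), mul_inv_cancel, h.one]

omit [Finite G] in
theorem Mu.inv' {H : Subgroup G} {s : G → (U →ₗ[ℂ] U)} (h : Mu H s) {x : G} (hx : x ∈ H) :
    s x⁻¹ * s x = 1 := by
  rw [← h.mul _ (H.inv_mem hx) x hx, inv_mul_cancel, h.one]

/-- the average of `s` over `H` -/
noncomputable def Pj (H : Subgroup G) (s : G → (U →ₗ[ℂ] U)) : U →ₗ[ℂ] U :=
  ((fs H).card : ℂ)⁻¹ • ∑ x ∈ fs H, s x

theorem Pj_left {H : Subgroup G} {s : G → (U →ₗ[ℂ] U)} (h : Mu H s) {x : G} (hx : x ∈ H) :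
    s x * Pj H s = Pj H s := by
  unfold Pj
  rw [mul_smul_comm, Finset.mul_sum]
  congr 1
  rw [← sum_left hx s]
  exact Finset.sum_congr rfl fun y hy => (h.mul x hx y (mem_fs.1 hy)).symm

theorem Pj_fix {H : Subgroup G} {s : G → (U →ₗ[ℂ] U)} {T : U →ₗ[ℂ] U}
    (hT : ∀ x ∈ H, s x * T = T) : Pj H s * T = T := by
  unfold Pj
  rw [smul_mul_assoc, Finset.sum_mul, Finset.sum_congr rfl fun x hx => hT x (mem_fs.1 hx),
    Finset.sum_const, ← Nat.cast_smul_eq_nsmul ℂ, smul_smul, inv_mul_cancel₀ (card_ne H), one_smul]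

theorem Pj_idem {H : Subgroup G} {s : G → (U →ₗ[ℂ] U)} (h : Mu H s) :
    Pj H s * Pj H s = Pj H s := Pj_fix fun _ hx => Pj_left h hx

theorem Pj_comm {H H' : Subgroup G} {s : G → (U →ₗ[ℂ] U)} (h : Mu H' s) (hl : H ≤ H') {v : G}
    (hv : v ∈ H') (h1 : ∀ x ∈ H, v * x * v⁻¹ ∈ H) (h2 : ∀ x ∈ H, v⁻¹ * x * v ∈ H) :
    s v * Pj H s = Pj H s * s v := by
  unfold Pj
  rw [mul_smul_comm, smul_mul_assoc, Finset.mul_sum, Finset.sum_mul]
  congr 1
  have e1 : ∀ x ∈ fs H, s v * s x = s (v * x * v⁻¹) * s v := by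
    intro x hx
    have hx' := hl (mem_fs.1 hx)
    rw [← h.mul _ (hl (h1 x (mem_fs.1 hx))) v hv, inv_mul_cancel_right, h.mul v hv x hx']
  rw [Finset.sum_congr rfl e1]
  exact sum_cj h1 h2 (fun y => s y * s v)

theorem tr_Pj {H H' : Subgroup G} {s : G → (U →ₗ[ℂ] U)} (h : Mu H' s) (hl : H ≤ H') {v : G}
    (hv : v ∈ H') :
    trace ℂ U (s v * Pj H s) = ((fs H).card : ℂ)⁻¹ * ∑ x ∈ fs H, trace ℂ U (s (v * x)) := by
  unfold Pj
  rw [mul_smul_comm, map_smul, smul_eq_mul, Finset.mul_sum, map_sum]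
  congr 1
  exact Finset.sum_congr rfl fun x hx => by rw [h.mul v hv x (hl (mem_fs.1 hx))]

/-- irreducible -/
def Irr (H : Subgroup G) (s : G → (U →ₗ[ℂ] U)) : Prop :=
  Nontrivial U ∧ ∀ N : Submodule ℂ U, (∀ x ∈ H, ∀ u ∈ N, s x u ∈ N) → N = ⊥ ∨ N = ⊤

variable [FiniteDimensional ℂ U]

omit [Finite G] in
theorem schur {H : Subgroup G} {s : G → (U →ₗ[ℂ] U)} (hI : Irr H s) {T : U →ₗ[ℂ] U}
    (hT : ∀ x ∈ H, T * s x = s x * T) : ∃ c : ℂ, T = c • 1 := by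
  obtain ⟨hn, hI⟩ := hI
  obtain ⟨c, hc⟩ := Module.End.exists_eigenvalue T
  have hne : Module.End.eigenspace T c ≠ ⊥ := hc
  refine ⟨c, ?_⟩
  rcases hI (Module.End.eigenspace T c) (by
    intro x hx u hu
    rw [Module.End.mem_eigenspace_iff] at hu ⊢
    calc T (s x u) = (T * s x) u := rfl
      _ = (s x * T) u := by rw [hT x hx]
      _ = s x (T u) := rfl
      _ = _ := by rw [hu, map_smul]) with h | h
  · exact absurd h hne
  · ext u
    have : u ∈ Module.End.eigenspace T c := by rw [h]; trivial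
    rw [Module.End.mem_eigenspace_iff] at this
    rw [this]; rfl

end Mu

section Hm

variable {W : Type v} [AddCommGroup W] [Module ℂ W] [FiniteDimensional ℂ W]
variable {E : Type w} [AddCommGroup E] [Module ℂ E] [FiniteDimensional ℂ E]

/-- the action on `Hom(W, E)` -/
def hm (r : G → (E →ₗ[ℂ] E)) (s : G → (W →ₗ[ℂ] W)) (x : G) :
    (W →ₗ[ℂ] E) →ₗ[ℂ] (W →ₗ[ℂ] E) := hh (r x) (s x⁻¹)

omit [Finite G] [FiniteDimensional ℂ W] [FiniteDimensional ℂ E] in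
theorem hm_mu {H : Subgroup G} {r : G → (E →ₗ[ℂ] E)} {s : G → (W →ₗ[ℂ] W)} (hr : Mu H r)
    (hs : Mu H s) : Mu H (hm r s) := by
  constructor
  · ext T w
    simp [hm, hh_apply, hr.one, hs.one]
  · intro x hx y hy
    ext T w
    simp only [hm, hh_apply, Module.End.mul_apply, LinearMap.comp_apply]
    rw [hr.mul x hx y hy, mul_inv_rev, hs.mul _ (H.inv_mem hy) _ (H.inv_mem hx)]
    rfl

omit [Finite G] in
theorem tr_hm (r : G → (E →ₗ[ℂ] E)) (s : G → (W →ₗ[ℂ] W)) (x : G) :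
    trace ℂ (W →ₗ[ℂ] E) (hm r s x) = trace ℂ E (r x) * trace ℂ W (s x⁻¹) := by
  rw [hm, tr_hh, mul_comm]

/-- the number `n_v` -/
noncomputable def nn (H : Subgroup G) (r : G → (E →ₗ[ℂ] E)) (s : G → (W →ₗ[ℂ] W)) (v : G) : ℂ :=
  ((fs H).card : ℂ)⁻¹ * ∑ x ∈ fs H, trace ℂ E (r (v * x)) * trace ℂ W (s (v * x)⁻¹)

theorem tr_nn {H H' : Subgroup G} {r : G → (E →ₗ[ℂ] E)} {s : G → (W →ₗ[ℂ] W)} (hr : Mu H' r)
    (hs : Mu H' s) (hl : H ≤ H') {v : G} (hv : v ∈ H') :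
    trace ℂ (W →ₗ[ℂ] E) (hm r s v * Pj H (hm r s)) = nn H r s v := by
  rw [tr_Pj (hm_mu hr hs) hl hv, nn]
  congr 1
  exact Finset.sum_congr rfl fun x _ => tr_hm r s _

/-- parity -/
theorem par {H H' : Subgroup G} {r : G → (E →ₗ[ℂ] E)} {s : G → (W →ₗ[ℂ] W)} (hr : Mu H' r)
    (hs : Mu H' s) (hl : H ≤ H') {v : G} (hv : v ∈ H') (hvv : v * v = 1)
    (h1 : ∀ x ∈ H, v * x * v⁻¹ ∈ H) :
    ∃ m n : ℤ, nn H r s v = (m : ℂ) ∧ nn H r s 1 = ((m + 2 * n : ℤ) : ℂ) := by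
  have hi : v⁻¹ = v := inv_eq_of_mul_eq_one_right hvv
  have h2 : ∀ x ∈ H, v⁻¹ * x * v ∈ H := by
    intro x hx
    have := h1 x hx
    rwa [hi] at this ⊢
  have hmu := hm_mu hr hs
  have hT : hm r s v * hm r s v = 1 := by
    rw [← hmu.mul v hv v hv, hvv, hmu.one]
  obtain ⟨m, n, e1, e2⟩ := tr_parity (Pj_idem (hmu.le hl)) hT (Pj_comm hmu hl hv h1 h2)
  refine ⟨m, n, ?_, ?_⟩
  · rw [← tr_nn hr hs hl hv, e1]
  · rw [← tr_nn hr hs hl H'.one_mem, hmu.one, one_mul, e2]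

/-- the norm -/
theorem norm_one [Nontrivial W] {H H' : Subgroup G} {s : G → (W →ₗ[ℂ] W)} (hs : Mu H' s)
    (hl : H ≤ H') {v : G} (hv : v ∈ H')
    (hsc : ∀ T : W →ₗ[ℂ] W, (∀ x ∈ H, T * s x = s x * T) → ∃ c : ℂ, T = c • 1) :
    nn H s s v = 1 := by
  have hmu := hm_mu hs hs
  have hsc' : ∀ T : W →ₗ[ℂ] W, ∃ c : ℂ, Pj H (hm s s) T = c • 1 := by
    intro T
    refine hsc _ fun x hx => ?_
    have e1 : hm s s x (Pj H (hm s s) T) = Pj H (hm s s) T := by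
      have := Pj_left (hmu.le hl) hx
      exact LinearMap.congr_fun this T
    have e2 : s x * Pj H (hm s s) T * s x⁻¹ = Pj H (hm s s) T := by
      conv_rhs => rw [← e1]
      rfl
    calc Pj H (hm s s) T * s x = s x * Pj H (hm s s) T * s x⁻¹ * s x := by rw [e2]
      _ = s x * Pj H (hm s s) T * (s x⁻¹ * s x) := by rw [mul_assoc]
      _ = _ := by rw [hs.inv' (hl hx), mul_one]
  have hfix : ∀ c : ℂ, ∀ x ∈ H', hm s s x (c • 1) = c • (1 : W →ₗ[ℂ] W) := by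
    intro c x hx
    have : hm s s x (c • 1) = c • (s x * s x⁻¹) := by
      rw [map_smul]; rfl
    rw [this, hs.inv hx]
  have e3 : hm s s v * Pj H (hm s s) = Pj H (hm s s) := by
    ext1 T
    obtain ⟨c, hc⟩ := hsc' T
    rw [Module.End.mul_apply, hc, hfix c v hv]
  rw [← tr_nn hs hs hl hv, e3, tr_idem (Pj_idem (hmu.le hl))]
  have e4 : range (Pj H (hm s s)) = Submodule.span ℂ {(1 : W →ₗ[ℂ] W)} := by
    apply le_antisymm
    · rintro _ ⟨T, rfl⟩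
      obtain ⟨c, hc⟩ := hsc' T
      rw [hc]
      exact Submodule.smul_mem _ _ (Submodule.subset_span rfl)
    · rw [Submodule.span_le]
      rintro _ rfl
      refine ⟨1, ?_⟩
      have := hfix 1
      simp only [one_smul] at this
      unfold Pj
      rw [LinearMap.smul_apply, LinearMap.sum_apply, Finset.sum_congr rfl fun x hx =>
        this x (hl (mem_fs.1 hx)), Finset.sum_const, ← Nat.cast_smul_eq_nsmul ℂ, smul_smul,
        inv_mul_cancel₀ (card_ne H), one_smul]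
  rw [e4, finrank_span_singleton one_ne_zero, Nat.cast_one]

end Hm

end Pool.Agent.FourGp.GJ6
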